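import Mathlib

set_option autoImplicit false

namespace Pool.Agent.Lib.MP_39e9bb_an

open Complex Set Filter Topology
open scoped ComplexConjugate

/-- Uniqueness of lifts through an entire function along non-critical points. -/
theorem lift_unique {P : ℂ → ℂ} (hP : Differentiable ℂ P) {σ τ : ℝ → ℂ}
    (hσ : ContinuousOn σ (Icc 0 1)) (hτ : ContinuousOn τ (Icc 0 1)) (h0 : σ 0 = τ 0)
    (heq : ∀ t ∈ Icc (0 : ℝ) 1, P (σ t) = P (τ t))
    (hd : ∀ t ∈ Icc (0 : ℝ) 1, deriv P (σ t) ≠ 0) : ∀ t ∈ Icc (0 : ℝ) 1, σ t = τ t := by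
  have hcl : IsClosed ({t | σ t = τ t} ∩ Icc (0 : ℝ) 1) := by
    have := (isClosed_Icc (a := (0 : ℝ)) (b := 1)).isClosed_eq hσ hτ
    convert this using 1
    ext t
    simp [and_comm]
  have key := hcl.Icc_subset_of_forall_mem_nhdsWithin (a := 0) (b := 1) h0 (by
    rintro x ⟨hx, hx0, hx1⟩
    have hxI : x ∈ Icc (0 : ℝ) 1 := ⟨hx0, hx1.le⟩
    have hs : HasStrictDerivAt P (deriv P (σ x)) (σ x) :=
      (hP.analyticAt (σ x)).hasStrictDerivAt
    have hinv := hs.eventually_left_inverse (hd x hxI)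
    have hI : Icc (0 : ℝ) 1 ∈ 𝓝[>] x :=
      mem_of_superset (Ioo_mem_nhdsGT hx1) (fun t ht => ⟨hx0.trans ht.1.le, ht.2.le⟩)
    have hle : 𝓝[>] x ≤ 𝓝[Icc (0 : ℝ) 1] x :=
      le_inf inf_le_left (le_principal_iff.mpr hI)
    have h1 : Tendsto σ (𝓝[>] x) (𝓝 (σ x)) := (hσ x hxI).tendsto.mono_left hle
    have h2 : Tendsto τ (𝓝[>] x) (𝓝 (σ x)) := by
      have : σ x = τ x := hx
      rw [this]
      exact (hτ x hxI).tendsto.mono_left hle
    filter_upwards [h1.eventually hinv, h2.eventually hinv, hI] with t a b c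
    show σ t = τ t
    rw [← a, ← b, heq t c])
  intro t ht
  exact key ht

/-- A polynomial, real on the real axis, whose derivative approximates that of
`2 log (1 - s)` on the part of the disk of radius `R` to the left of `Re s = 1/2`. -/
theorem exists_H (R η : ℝ) (hη : 0 < η) :
    ∃ H : ℂ → ℂ, Differentiable ℂ H ∧ H 0 = 0 ∧ (∀ s, H (conj s) = conj (H s)) ∧
      (∀ s, deriv H (conj s) = conj (deriv H s)) ∧
      ∀ s : ℂ, s.re ≤ 1 / 2 → ‖s‖ ≤ R → ‖deriv H s + 2 / (1 - s)‖ ≤ η := by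
  set L : ℝ := R ^ 2 with hL
  have hL0 : 0 ≤ L := sq_nonneg R
  have hL1 : (0 : ℝ) < 1 + L := by linarith
  set q : ℝ := (L ^ 2 + 2 * L) / (1 + L) ^ 2 with hq
  have hq0 : 0 ≤ q := by positivity
  have hq1 : q < 1 := by
    rw [hq, div_lt_one (by positivity)]
    nlinarith
  obtain ⟨k, hk⟩ : ∃ k : ℕ, q ^ k < η / 4 := exists_pow_lt_of_lt_one (by positivity) hq1
  have hL1c : ((1 : ℂ) + (L : ℂ)) ≠ 0 := by
    have : ((1 + L : ℝ) : ℂ) ≠ 0 := ofReal_ne_zero.mpr hL1.ne'
    simpa using this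
  let H : ℂ → ℂ := fun s => ∑ n ∈ Finset.range (2 * k),
    (-2 / ((n : ℂ) + 1)) * (((s + L) / (1 + L)) ^ (n + 1) - ((L : ℂ) / (1 + L)) ^ (n + 1))
  have hder : ∀ s, HasDerivAt H
      (∑ n ∈ Finset.range (2 * k), (-2 / (1 + (L : ℂ))) * ((s + L) / (1 + L)) ^ n) s := by
    intro s
    apply HasDerivAt.fun_sum
    intro n _
    have h1 : HasDerivAt (fun s : ℂ => (s + L) / (1 + L)) (1 / (1 + L)) s :=
      ((hasDerivAt_id s).add_const (L : ℂ)).div_const _
    have h2 := ((h1.fun_pow (n + 1)).sub_const (((L : ℂ) / (1 + L)) ^ (n + 1))).const_mul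
      (-2 / ((n : ℂ) + 1))
    have hn : ((n : ℂ) + 1) ≠ 0 := by exact_mod_cast Nat.succ_ne_zero n
    refine h2.congr_deriv ?_
    simp only [Nat.add_sub_cancel]
    push_cast
    field_simp
  refine ⟨H, fun s => (hder s).differentiableAt, ?_, ?_, ?_, ?_⟩
  · simp [H]
  · intro s
    simp [H, map_sum, map_ofNat]
  · intro s
    rw [(hder _).deriv, (hder _).deriv]
    simp [map_sum, map_ofNat]
  · intro s hs hsR
    rw [(hder _).deriv, ← Finset.mul_sum]
    set σ : ℂ := (s + L) / (1 + L) with hσ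
    have h1s : (1 : ℝ) / 2 ≤ ‖1 - s‖ := by
      have : (1 - s).re ≤ ‖1 - s‖ := re_le_norm _
      simp at this
      linarith
    have h1s' : (1 - s) ≠ 0 := by
      intro h
      rw [h] at h1s
      norm_num at h1s
    have hσ1 : 1 - σ = (1 - s) / (1 + L) := by
      rw [hσ]
      field_simp
      ring
    have hσne : σ ≠ 1 := by
      intro h
      have : (1 - s) / (1 + L) = 0 := by rw [← hσ1, h, sub_self]
      rcases div_eq_zero_iff.mp this with h | h
      · exact h1s' h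
      · exact hL1c h
    have hgeom : ∑ n ∈ Finset.range (2 * k), σ ^ n = (1 - σ ^ (2 * k)) / (1 - σ) := by
      rw [geom_sum_eq hσne]
      have : σ - 1 ≠ 0 := sub_ne_zero.mpr hσne
      have : 1 - σ ≠ 0 := sub_ne_zero.mpr hσne.symm
      field_simp
      ring
    have hexp : -2 / (1 + (L : ℂ)) * ∑ n ∈ Finset.range (2 * k), σ ^ n + 2 / (1 - s)
        = 2 * σ ^ (2 * k) / (1 - s) := by
      rw [hgeom, hσ1]
      field_simp
      ring
    rw [hexp]
    have hσq : ‖σ‖ ^ 2 ≤ q := by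
      have e1 : ‖(1 : ℂ) + L‖ = 1 + L := by
        have : ((1 : ℂ) + L) = ((1 + L : ℝ) : ℂ) := by push_cast; ring
        rw [this, Complex.norm_real, Real.norm_of_nonneg hL1.le]
      rw [hσ, norm_div, div_pow, e1, hq]
      apply div_le_div_of_nonneg_right _ (by positivity)
      have e2 : ‖s + L‖ ^ 2 = ‖s‖ ^ 2 + 2 * L * s.re + L ^ 2 := by
        rw [Complex.sq_norm, Complex.sq_norm, normSq_apply, normSq_apply]
        simp
        ring
      have e3 : ‖s‖ ^ 2 ≤ L := by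
        rw [hL]
        exact pow_le_pow_left₀ (norm_nonneg _) hsR 2
      rw [e2]
      nlinarith
    have hpow : ‖σ ^ (2 * k)‖ ≤ η / 4 := by
      rw [norm_pow, pow_mul]
      exact (pow_le_pow_left₀ (by positivity) hσq k).trans hk.le
    rw [norm_div, norm_mul, div_le_iff₀ (by linarith)]
    have : ‖(2 : ℂ)‖ = 2 := by simp
    rw [this]
    nlinarith

end Pool.Agent.Lib.MP_39e9bb_an
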