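import Mathlib

set_option autoImplicit false

namespace Pool.Agent.Lib.MP_39e9bb_an.LU

open Complex Set Filter Topology
open scoped ComplexConjugate Real NNReal

/-- Entire approximation on a compact part of a half plane. -/
theorem approx0 {F : ℂ → ℂ} (hF : DifferentiableOn ℂ F {z | -3 / 4 < z.re}) (ρ η : ℝ)
    (hη : 0 < η) :
    ∃ P : ℂ → ℂ, Differentiable ℂ P ∧
      ∀ z : ℂ, -1 / 2 ≤ z.re → ‖z‖ ≤ ρ → ‖P z - F z‖ ≤ η := by
  set L : ℝ := 8 * ρ ^ 2 with hL
  have hL0 : 0 ≤ L := by positivity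
  let R1 : ℝ≥0 := ⟨L + 5 / 8, by positivity⟩
  let R2 : ℝ≥0 := ⟨L + 9 / 16, by positivity⟩
  have hR1 : (R1 : ℝ) = L + 5 / 8 := rfl
  have hR2 : (R2 : ℝ) = L + 9 / 16 := rfl
  have hsub : Metric.closedBall (L : ℂ) R1 ⊆ {z | -3 / 4 < z.re} := by
    intro z hz
    rw [Metric.mem_closedBall, dist_eq_norm, hR1] at hz
    have h1 := (abs_le.mp ((abs_re_le_norm (z - L)).trans hz)).1
    simp only [sub_re, ofReal_re] at h1
    show -3 / 4 < z.re
    linarith
  have hpos : 0 < R1 := by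
    rw [← NNReal.coe_pos, hR1]; positivity
  have hp := (hF.mono hsub).hasFPowerSeriesOnBall hpos
  have hlt : ((R2 : ℝ≥0) : ENNReal) < (R1 : ℝ≥0) := by
    rw [ENNReal.coe_lt_coe, ← NNReal.coe_lt_coe, hR1, hR2]; linarith
  have hu := hp.tendstoUniformlyOn' hlt
  rw [Metric.tendstoUniformlyOn_iff] at hu
  obtain ⟨n, hn⟩ := (hu η hη).exists
  refine ⟨fun y => (cauchyPowerSeries F L R1).partialSum n (y - L), ?_, ?_⟩
  · have e : (fun y : ℂ => (cauchyPowerSeries F L R1).partialSum n (y - L)) =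
        fun y : ℂ => ∑ k ∈ Finset.range n, (y - L) ^ k * (cauchyPowerSeries F L R1).coeff k := by
      funext y
      simp only [FormalMultilinearSeries.partialSum,
        FormalMultilinearSeries.apply_eq_pow_smul_coeff, smul_eq_mul]
    rw [e]
    fun_prop
  · intro z hz hzρ
    have hb : z ∈ Metric.ball (L : ℂ) R2 := by
      rw [Metric.mem_ball, dist_eq_norm, hR2]
      have e2 : ‖z - L‖ ^ 2 = ‖z‖ ^ 2 - 2 * L * z.re + L ^ 2 := by
        rw [Complex.sq_norm, Complex.sq_norm, normSq_apply, normSq_apply]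
        simp
        ring
      have e3 : ‖z‖ ^ 2 ≤ ρ ^ 2 := pow_le_pow_left₀ (norm_nonneg _) hzρ 2
      have e4 : ‖z - L‖ ^ 2 < (L + 9 / 16) ^ 2 := by
        rw [e2]
        nlinarith
      exact lt_of_pow_lt_pow_left₀ 2 (by positivity) e4
    have := hn z hb
    rw [dist_comm, dist_eq_norm] at this
    exact this.le

theorem diff_conj {P : ℂ → ℂ} (hP : Differentiable ℂ P) :
    Differentiable ℂ (fun z => conj (P (conj z))) := by
  intro z
  have h := (hP (conj z)).hasDerivAt.conj_conj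
  rw [conj_conj] at h
  exact h.differentiableAt

/-- The approximant may be taken real on the real axis. -/
theorem approx {F : ℂ → ℂ} (hF : DifferentiableOn ℂ F {z | -3 / 4 < z.re})
    (hc : ∀ z : ℂ, -1 / 2 ≤ z.re → F (conj z) = conj (F z)) (ρ η : ℝ) (hη : 0 < η) :
    ∃ P : ℂ → ℂ, Differentiable ℂ P ∧ (∀ z, P (conj z) = conj (P z)) ∧
      ∀ z : ℂ, -1 / 2 ≤ z.re → ‖z‖ ≤ ρ → ‖P z - F z‖ ≤ η := by
  obtain ⟨P, hP, hap⟩ := approx0 hF ρ η hη
  refine ⟨fun z => (P z + conj (P (conj z))) / 2, (hP.add (diff_conj hP)).div_const _, ?_, ?_⟩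
  · intro z
    simp only [conj_conj, map_div₀, map_add, map_ofNat]
    ring
  · intro z hz hρ
    have h1 := hap z hz hρ
    have h2 := hap (conj z) (by simpa using hz) (by simpa using hρ)
    rw [hc z hz] at h2
    have h3 : ‖conj (P (conj z)) - F z‖ ≤ η := by
      rw [← norm_conj, map_sub, conj_conj]
      exact h2
    have e : (P z + conj (P (conj z))) / 2 - F z
        = ((P z - F z) + (conj (P (conj z)) - F z)) / 2 := by ring
    show ‖(P z + conj (P (conj z))) / 2 - F z‖ ≤ η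
    rw [e, norm_div]
    have h4 := norm_add_le (P z - F z) (conj (P (conj z)) - F z)
    have h5 : ‖(2 : ℂ)‖ = 2 := by simp
    rw [h5]
    linarith

/-- A symmetric primitive of a symmetric entire function. -/
theorem prim {h : ℂ → ℂ} (hh : Differentiable ℂ h) (hc : ∀ z, h (conj z) = conj (h z)) :
    ∃ G : ℂ → ℂ, G 0 = 0 ∧ (∀ z, HasDerivAt G (h z) z) ∧ ∀ z, G (conj z) = conj (G z) := by
  obtain ⟨G, hG0, hG⟩ := hh.isExactOn_univ.with_val_at 0 0
  have hG' : ∀ z, HasDerivAt G (h z) z := fun z => hG z (mem_univ z)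
  refine ⟨G, hG0, hG', ?_⟩
  have h2 : ∀ z, HasDerivAt (fun z => conj (G (conj z)) - G z) 0 z := by
    intro z
    have h1 := (hG' (conj z)).conj_conj
    rw [conj_conj, hc, conj_conj] at h1
    have h3 := h1.sub (hG' z)
    rw [sub_self] at h3
    exact h3
  intro z
  have h4 := is_const_of_deriv_eq_zero (fun z => (h2 z).differentiableAt)
    (fun z => (h2 z).deriv) z 0
  simp only [map_zero, hG0, sub_self] at h4
  have h5 : conj (G (conj z)) = G z := sub_eq_zero.mp h4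
  rw [← h5, conj_conj]

/-- The controlled region. -/
def K (R : ℝ) (s : ℂ) : Prop := -1 / 2 ≤ (s ^ 2).re ∧ ‖s‖ ≤ R

theorem star_lip {D D' : ℂ → ℂ} {R η : ℝ} (hd : ∀ s, K R s → HasDerivAt D (D' s) s)
    (hb : ∀ s, K R s → ‖D' s‖ ≤ η) (h0 : D 0 = 0) {s : ℂ} (hs : K R s) :
    ‖D s‖ ≤ η * ‖s‖ := by
  have hK : ∀ z ∈ segment ℝ (0 : ℂ) s, K R z := by
    rintro z ⟨a, b, ha, hb0, hab, rfl⟩
    have hb1 : b ≤ 1 := by linarith
    have e : a • (0 : ℂ) + b • s = (b : ℂ) * s := by simp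
    rw [e]
    constructor
    · have e2 : (((b : ℂ) * s) ^ 2).re = b ^ 2 * (s ^ 2).re := by
        rw [mul_pow, ← ofReal_pow, re_ofReal_mul]
      rw [e2]
      have h1 := hs.1
      have h2 : b ^ 2 ≤ 1 := pow_le_one₀ hb0 hb1
      have h3 : 0 ≤ b ^ 2 := sq_nonneg b
      nlinarith
    · rw [norm_mul, Complex.norm_real, Real.norm_of_nonneg hb0]
      have := hs.2
      nlinarith [norm_nonneg s]
  have := (convex_segment (0 : ℂ) s).norm_image_sub_le_of_norm_hasDerivWithin_le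
    (fun z hz => (hd z (hK z hz)).hasDerivWithinAt) (fun z hz => hb z (hK z hz))
    (left_mem_segment ℝ 0 s) (right_mem_segment ℝ 0 s)
  simpa [h0] using this

/-- The square root of `1 + s ^ 2`. -/
noncomputable def rt (s : ℂ) : ℂ := exp (log (1 + s ^ 2) / 2)

noncomputable def uu (s : ℂ) : ℂ := rt s - s

noncomputable def H0 (s : ℂ) : ℂ := 3 * log (uu s) + log (1 + 4 * s ^ 2 / 3)

noncomputable def Q0 (s : ℂ) : ℂ :=
  3 * log (uu s) - log (1 + s ^ 2) / 2 - log (1 + 4 * s ^ 2 / 3)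

section

variable {s : ℂ} (hs : -1 / 2 ≤ (s ^ 2).re)
include hs

theorem re1 : 1 / 2 ≤ (1 + s ^ 2).re := by
  rw [add_re, one_re]; linarith

theorem re2 : 1 / 3 ≤ (1 + 4 * s ^ 2 / 3).re := by
  have e : (1 + 4 * s ^ 2 / 3).re = 1 + 4 * (s ^ 2).re / 3 := by
    rw [show (1 : ℂ) + 4 * s ^ 2 / 3 = 1 + ((4 / 3 : ℝ) : ℂ) * s ^ 2 by push_cast; ring,
      add_re, one_re, re_ofReal_mul]
    ring
  rw [e]; linarith

theorem sl1 : 1 + s ^ 2 ∈ slitPlane := Or.inl (by have := re1 hs; linarith)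

theorem sl2 : 1 + 4 * s ^ 2 / 3 ∈ slitPlane := Or.inl (by have := re2 hs; linarith)

theorem rt_sq : rt s ^ 2 = 1 + s ^ 2 := by
  rw [rt, sq, ← exp_add, add_halves, exp_log (slitPlane_ne_zero (sl1 hs))]

theorem rt_re : 0 < (rt s).re := by
  rw [rt, exp_re]
  apply mul_pos (Real.exp_pos _)
  have e : (log (1 + s ^ 2) / 2).im = arg (1 + s ^ 2) / 2 := by
    rw [div_ofNat_im, log_im]
  rw [e]
  have h1 := slitPlane_arg_ne_pi (sl1 hs)
  have h2 := neg_pi_lt_arg (1 + s ^ 2)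
  have h3 := lt_of_le_of_ne (arg_le_pi (1 + s ^ 2)) h1
  exact Real.cos_pos_of_mem_Ioo ⟨by linarith, by linarith⟩

theorem rt_ne : rt s ≠ 0 := by
  intro h
  have := rt_re hs
  rw [h] at this
  simp at this

theorem uu_mul : uu s * (rt s + s) = 1 := by
  have := rt_sq hs
  rw [uu]
  linear_combination this

theorem uu_ne : uu s ≠ 0 := left_ne_zero_of_mul_eq_one (uu_mul hs)

theorem uu_inv : (uu s)⁻¹ = rt s + s := inv_eq_of_mul_eq_one_right (uu_mul hs)

theorem uu_re : 0 < (uu s).re := by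
  have h1 : (uu s + (uu s)⁻¹).re = 2 * (rt s).re := by
    rw [uu_inv hs, uu]
    simp only [add_re, sub_re]
    ring
  rw [add_re, inv_re] at h1
  have h2 := rt_re hs
  have h3 : 0 < normSq (uu s) := normSq_pos.mpr (uu_ne hs)
  by_contra hn
  push Not at hn
  have h4 : (uu s).re / normSq (uu s) ≤ 0 := div_nonpos_of_nonpos_of_nonneg hn h3.le
  linarith

theorem rt_der : HasDerivAt rt (s / rt s) s := by
  have h1 : HasDerivAt (fun s : ℂ => 1 + s ^ 2) (2 * s) s := by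
    simpa using (hasDerivAt_pow 2 s).const_add 1
  have h2 := ((h1.clog (sl1 hs)).div_const 2).cexp
  refine h2.congr_deriv ?_
  have h3 := rt_ne hs
  have h4 : cexp (log (1 + s ^ 2) / 2) = rt s := rfl
  rw [h4, ← rt_sq hs]
  field_simp

theorem loguu_der : HasDerivAt (fun s => log (uu s)) (-1 / rt s) s := by
  have h1 : HasDerivAt uu (s / rt s - 1) s := (rt_der hs).sub (hasDerivAt_id s)
  have h2 := h1.clog (Or.inl (uu_re hs))
  refine h2.congr_deriv ?_
  have h3 := rt_ne hs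
  have h4 := uu_ne hs
  rw [uu] at h4 ⊢
  field_simp
  ring

theorem log2_der : HasDerivAt (fun s : ℂ => log (1 + 4 * s ^ 2 / 3))
    (8 * s / 3 / (1 + 4 * s ^ 2 / 3)) s := by
  have h1 : HasDerivAt (fun s : ℂ => 1 + 4 * s ^ 2 / 3) (8 * s / 3) s := by
    refine ((((hasDerivAt_pow 2 s).const_mul 4).div_const 3).const_add 1).congr_deriv ?_
    simp
    ring
  exact h1.clog (sl2 hs)

theorem H0_der : HasDerivAt H0 (3 * (-1 / rt s) + 8 * s / 3 / (1 + 4 * s ^ 2 / 3)) s :=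
  ((loguu_der hs).const_mul 3).add (log2_der hs)

theorem Q0_der : HasDerivAt Q0
    (3 * (-1 / rt s) - 2 * s / (1 + s ^ 2) / 2 - 8 * s / 3 / (1 + 4 * s ^ 2 / 3)) s := by
  have h1 : HasDerivAt (fun s : ℂ => 1 + s ^ 2) (2 * s) s := by
    simpa using (hasDerivAt_pow 2 s).const_add 1
  exact (((loguu_der hs).const_mul 3).sub ((h1.clog (sl1 hs)).div_const 2)).sub (log2_der hs)

theorem exp3 : exp (3 * log (uu s)) = uu s ^ 3 := by
  rw [show (3 : ℂ) * log (uu s) = ((3 : ℕ) : ℂ) * log (uu s) by norm_num, exp_nat_mul,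
    exp_log (uu_ne hs)]

theorem exp_H0 : exp (H0 s) = uu s ^ 3 * (1 + 4 * s ^ 2 / 3) := by
  rw [H0, exp_add, exp3 hs, exp_log (slitPlane_ne_zero (sl2 hs))]

theorem exp_Q0 : exp (Q0 s) = uu s ^ 3 / rt s / (1 + 4 * s ^ 2 / 3) := by
  rw [Q0, exp_sub, exp_sub, exp3 hs, exp_log (slitPlane_ne_zero (sl2 hs))]
  rfl

theorem key_id :
    1 + s * (3 * (-1 / rt s) + 8 * s / 3 / (1 + 4 * s ^ 2 / 3)) = exp (Q0 s) := by
  rw [exp_Q0 hs, uu]
  have h1 := rt_sq hs
  have h2 := rt_ne hs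
  have h3 := slitPlane_ne_zero (sl2 hs)
  set v := 1 + 4 * s ^ 2 / 3 with hv
  field_simp
  rw [hv]
  linear_combination (9 * s - 3 * rt s) * h1

theorem phi0 : s * exp (H0 s) = (1 - uu s ^ 6) / 6 := by
  rw [exp_H0 hs]
  have h1 := uu_mul hs
  have h2 : rt s = uu s + s := by rw [uu]; ring
  rw [h2] at h1
  have h3 : s * uu s = (1 - uu s ^ 2) / 2 := by linear_combination h1 / 2
  have e : s * (uu s ^ 3 * (1 + 4 * s ^ 2 / 3))
      = (s * uu s) * uu s ^ 2 + 4 / 3 * (s * uu s) ^ 3 := by ring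
  rw [e, h3]
  ring

end

end Pool.Agent.Lib.MP_39e9bb_an.LU
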