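import Pool.Agent.Lib.MP_39e9bb_an.LU1

set_option autoImplicit false

namespace Pool.Agent.Lib.MP_39e9bb_an.LU

open Complex Set Filter Topology
open scoped ComplexConjugate Real

section

variable {R : ℝ} {s : ℂ}

theorem rt_le (hR : 1 ≤ R) (hs : K R s) : ‖rt s‖ ≤ 2 * R := by
  have h1 : ‖rt s‖ ^ 2 ≤ (2 * R) ^ 2 := by
    rw [← norm_pow, rt_sq hs.1]
    have h2 := norm_add_le (1 : ℂ) (s ^ 2)
    rw [norm_one, norm_pow] at h2
    have h3 : ‖s‖ ^ 2 ≤ R ^ 2 := pow_le_pow_left₀ (norm_nonneg _) hs.2 2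
    nlinarith
  exact le_of_pow_le_pow_left₀ two_ne_zero (by linarith) h1

theorem rt_ge (hs : K R s) : 1 / 2 ≤ ‖rt s‖ := by
  have h1 : (1 / 2 : ℝ) ^ 2 ≤ ‖rt s‖ ^ 2 := by
    rw [← norm_pow, rt_sq hs.1]
    have h2 := (re1 hs.1).trans (re_le_norm _)
    linarith
  exact le_of_pow_le_pow_left₀ two_ne_zero (norm_nonneg _) h1

theorem uu_le (hR : 1 ≤ R) (hs : K R s) : ‖uu s‖ ≤ 3 * R := by
  have h1 := norm_sub_le (rt s) s
  have h2 := rt_le hR hs
  have h3 := hs.2
  rw [uu]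
  linarith

theorem uu_ge (hR : 1 ≤ R) (hs : K R s) : 1 ≤ ‖uu s‖ * (3 * R) := by
  have h1 := norm_add_le (rt s) s
  have h2 := rt_le hR hs
  have h3 := hs.2
  have h4 := congrArg norm (uu_mul hs.1)
  rw [norm_mul, norm_one] at h4
  rw [← h4]
  exact mul_le_mul_of_nonneg_left (by linarith) (norm_nonneg _)

theorem expQ0_le (hR : 1 ≤ R) (hs : K R s) : ‖exp (Q0 s)‖ ≤ 162 * R ^ 3 := by
  rw [exp_Q0 hs.1, norm_div, norm_div, norm_pow]
  have h1 := rt_ge hs
  have h2 := (re2 hs.1).trans (re_le_norm _)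
  have h3 : ‖uu s‖ ^ 3 ≤ (3 * R) ^ 3 := pow_le_pow_left₀ (norm_nonneg _) (uu_le hR hs) 3
  calc ‖uu s‖ ^ 3 / ‖rt s‖ / ‖1 + 4 * s ^ 2 / 3‖ ≤ (3 * R) ^ 3 / (1 / 2) / (1 / 3) := by
        gcongr
    _ = 162 * R ^ 3 := by ring

theorem phi0_le (hR : 1 ≤ R) (hs : K R s) : ‖s * exp (H0 s)‖ ≤ 125 * R ^ 6 := by
  rw [phi0 hs.1, norm_div]
  have h1 := norm_sub_le (1 : ℂ) (uu s ^ 6)
  rw [norm_one, norm_pow] at h1
  have h3 : ‖uu s‖ ^ 6 ≤ (3 * R) ^ 6 := pow_le_pow_left₀ (norm_nonneg _) (uu_le hR hs) 6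
  have h4 : 1 ≤ R ^ 6 := one_le_pow₀ hR
  have h5 : ‖(6 : ℂ)‖ = 6 := by simp
  rw [h5, div_le_iff₀ (by norm_num)]
  nlinarith

/-- On the barrier the model has negative imaginary part. -/
theorem phi0_barrier (hR : 1 ≤ R) (hs : K R s) (hb : (s ^ 2).re = -1 / 2) (him : 0 < s.im) :
    (s * exp (H0 s)).im ≤ -(1 / (6 * (3 * R) ^ 6)) := by
  have hne := uu_ne hs.1
  have hre := uu_re hs.1
  have hinv := uu_inv hs.1
  have h2 : rt s = uu s + s := by rw [uu]; ring
  rw [h2] at hinv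
  set u := uu s with hu
  have hn : 0 < normSq u := normSq_pos.mpr hne
  have him' : u.im < 0 := by
    have h3 := congrArg im hinv
    simp only [inv_im, add_im] at h3
    by_contra hc
    push Not at hc
    have h4 : -u.im / normSq u ≤ 0 := div_nonpos_of_nonpos_of_nonneg (by linarith) hn.le
    linarith
  have hsq : (u ^ 2)⁻¹ + u ^ 2 = 4 * s ^ 2 + 2 := by
    have h5 : u * u⁻¹ = 1 := mul_inv_cancel₀ hne
    rw [← inv_pow]
    rw [hinv] at h5 ⊢
    linear_combination 2 * h5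
  have hre2 : (u ^ 2).re = 0 := by
    have h3 := congrArg re hsq
    have h4 : (4 * s ^ 2 + 2).re = 0 := by
      rw [show (4 : ℂ) * s ^ 2 + 2 = ((4 : ℝ) : ℂ) * s ^ 2 + ((2 : ℝ) : ℂ) by push_cast; ring,
        add_re, re_ofReal_mul, ofReal_re, hb]
      norm_num
    rw [h4, add_re, inv_re] at h3
    have h6 : 0 < normSq (u ^ 2) := normSq_pos.mpr (pow_ne_zero 2 hne)
    have h7 : (u ^ 2).re * (1 / normSq (u ^ 2) + 1) = 0 := by
      rw [← h3]; ring
    rcases mul_eq_zero.mp h7 with h | h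
    · exact h
    · have : 0 < 1 / normSq (u ^ 2) := by positivity
      linarith
  set t : ℝ := (u ^ 2).im with ht
  have ht0 : t < 0 := by
    have : t = 2 * u.re * u.im := by
      rw [ht, sq, mul_im]; ring
    rw [this]
    nlinarith
  have hu2 : u ^ 2 = (t : ℂ) * I := by
    apply Complex.ext
    · simp [hre2]
    · simp [ht]
  have habs : -t = ‖u‖ ^ 2 := by
    rw [← norm_pow, hu2, norm_mul, norm_I, mul_one, Complex.norm_real, Real.norm_eq_abs,
      abs_of_neg ht0]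
  have hu6 : (1 - u ^ 6) / 6 = 1 / 6 + ((t ^ 3 / 6 : ℝ) : ℂ) * I := by
    rw [show u ^ 6 = (u ^ 2) ^ 3 by ring, hu2]
    push_cast
    linear_combination (-(t : ℂ) ^ 3 * I / 6) * I_sq
  rw [phi0 hs.1, ← hu, hu6]
  have e : (1 / 6 + ((t ^ 3 / 6 : ℝ) : ℂ) * I).im = t ^ 3 / 6 := by
    rw [add_im, mul_I_im, ofReal_re]
    norm_num
  rw [e]
  have h8 := uu_ge hR hs
  rw [← hu] at h8
  have h9 : 1 ≤ (‖u‖ * (3 * R)) ^ 6 := one_le_pow₀ h8
  have h10 : t ^ 3 = -(‖u‖ ^ 6) := by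
    have : t = -(‖u‖ ^ 2) := by linarith
    rw [this]; ring
  have hR6 : 0 < (3 * R) ^ 6 := by positivity
  rw [h10, neg_div, neg_le_neg_iff, div_le_div_iff₀ (by positivity) (by norm_num)]
  rw [mul_pow] at h9
  nlinarith

/-- On the positive axis the model is bounded. -/
theorem phi0_pos {x : ℝ} (hx : 0 ≤ x) : ‖(x : ℂ) * exp (H0 x)‖ ≤ 1 / 3 := by
  have hs : -1 / 2 ≤ ((x : ℂ) ^ 2).re := by
    rw [← ofReal_pow, ofReal_re]
    nlinarith [sq_nonneg x]
  have h1 : 1 ≤ ‖rt x + x‖ := by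
    have h2 : ‖rt x‖ ^ 2 = 1 + x ^ 2 := by
      rw [← norm_pow, rt_sq hs, ← ofReal_pow, ← ofReal_one, ← ofReal_add, Complex.norm_real,
        Real.norm_of_nonneg (by positivity)]
    have h3 : ‖rt x + x‖ ^ 2 = ‖rt x‖ ^ 2 + 2 * x * (rt x).re + x ^ 2 := by
      rw [Complex.sq_norm, Complex.sq_norm, normSq_apply, normSq_apply]
      simp
      ring
    have h4 := rt_re hs
    have h5 : (1 : ℝ) ^ 2 ≤ ‖rt x + x‖ ^ 2 := by
      rw [h3, h2]
      nlinarith [mul_nonneg hx h4.le, sq_nonneg x]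
    exact le_of_pow_le_pow_left₀ two_ne_zero (norm_nonneg _) h5
  have h6 : ‖uu x‖ ≤ 1 := by
    have h4 := congrArg norm (uu_mul hs)
    rw [norm_mul, norm_one] at h4
    nlinarith [norm_nonneg (uu x)]
  rw [phi0 hs, norm_div]
  have h7 := norm_sub_le (1 : ℂ) (uu x ^ 6)
  rw [norm_one, norm_pow] at h7
  have h8 : ‖uu x‖ ^ 6 ≤ 1 := pow_le_one₀ (norm_nonneg _) h6
  have h5 : ‖(6 : ℂ)‖ = 6 := by simp
  rw [h5, div_le_iff₀ (by norm_num)]
  linarith

end

theorem uu_zero : uu 0 = 1 := by simp [uu, rt]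

/-- An entire `H`, real on the real axis, with `1 + s H'(s)` free of zeros and close to the
model on the controlled region. -/
theorem approxH {R η : ℝ} (hR : 1 ≤ R) (hη : 0 < η) (hη1 : η ≤ 1) :
    ∃ H : ℂ → ℂ, Differentiable ℂ H ∧ H 0 = 0 ∧ (∀ s, H (conj s) = conj (H s)) ∧
      (∀ s, 1 + s * deriv H s ≠ 0) ∧ ∀ s, K R s → ‖H s - H0 s‖ ≤ η := by
  have hR0 : 0 < R := by linarith
  set e1 : ℝ := η / (1296 * R ^ 5) with he1
  have he10 : 0 < e1 := by positivity
  have hd1 : DifferentiableOn ℂ (fun z : ℂ => (exp (log (1 + z) / 2))⁻¹) {z | -3 / 4 < z.re} := by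
    intro z hz
    have hz' : -3 / 4 < z.re := hz
    have hsl : 1 + z ∈ slitPlane := Or.inl (by rw [add_re, one_re]; linarith)
    exact (((((differentiableAt_id.const_add 1).clog hsl).div_const 2).cexp).inv
      (exp_ne_zero _)).differentiableWithinAt
  have hc1 : ∀ z : ℂ, -1 / 2 ≤ z.re →
      (exp (log (1 + conj z) / 2))⁻¹ = conj ((exp (log (1 + z) / 2))⁻¹) := by
    intro z hz
    have hsl : 1 + z ∈ slitPlane := Or.inl (by rw [add_re, one_re]; linarith)
    have e : 1 + conj z = conj (1 + z) := by simp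
    rw [e, log_conj _ (slitPlane_arg_ne_pi hsl), map_inv₀, ← exp_conj, map_div₀, map_ofNat]
  have hd2 : DifferentiableOn ℂ (fun z : ℂ => 1 / (1 + z) + 8 / 3 / (1 + 4 * z / 3))
      {z | -3 / 4 < z.re} := by
    intro z hz
    have hz' : -3 / 4 < z.re := hz
    have h1 : 1 + z ≠ 0 := by
      intro h
      have := congrArg re h
      simp at this
      linarith
    have h2 : 1 + 4 * z / 3 ≠ 0 := by
      intro h
      have := congrArg re h
      simp at this
      linarith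
    apply DifferentiableAt.differentiableWithinAt
    fun_prop (disch := assumption)
  obtain ⟨P1, hP1, hP1c, hP1a⟩ := approx hd1 hc1 (R ^ 2) e1 he10
  obtain ⟨P2, hP2, hP2c, hP2a⟩ := approx hd2 (fun z _ => by simp [map_ofNat]) (R ^ 2) e1 he10
  obtain ⟨Q, hQ0, hQ, hQc⟩ := prim (h := fun s => -3 * P1 (s ^ 2) - s * P2 (s ^ 2))
    (by fun_prop) (fun z => by
      simp only [← map_pow, hP1c, hP2c, map_sub, map_mul, map_neg, map_ofNat])
  have hQd : Differentiable ℂ Q := fun z => (hQ z).differentiableAt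
  have hsq : ∀ s, K R s → ‖s ^ 2‖ ≤ R ^ 2 := fun s hs => by
    rw [norm_pow]; exact pow_le_pow_left₀ (norm_nonneg _) hs.2 2
  have hQa : ∀ s, K R s → ‖Q s - Q0 s‖ ≤ 4 * R * e1 * ‖s‖ := by
    intro s hs
    refine star_lip (D := fun s => Q s - Q0 s) (fun s hs => (hQ s).sub (Q0_der hs.1)) ?_ ?_ hs
    · intro s hs
      have h1 := hP1a _ hs.1 (hsq s hs)
      have h2 := hP2a _ hs.1 (hsq s hs)
      have e : -3 * P1 (s ^ 2) - s * P2 (s ^ 2) - (3 * (-1 / rt s) - 2 * s / (1 + s ^ 2) / 2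
          - 8 * s / 3 / (1 + 4 * s ^ 2 / 3))
          = -3 * (P1 (s ^ 2) - (exp (log (1 + s ^ 2) / 2))⁻¹)
            - s * (P2 (s ^ 2) - (1 / (1 + s ^ 2) + 8 / 3 / (1 + 4 * s ^ 2 / 3))) := by
        rw [rt]; ring
      rw [e]
      refine (norm_sub_le _ _).trans ?_
      rw [norm_mul, norm_mul, norm_neg]
      have h3 : ‖(3 : ℂ)‖ = 3 := by simp
      rw [h3]
      have h4 := mul_le_mul hs.2 h2 (norm_nonneg _) hR0.le
      nlinarith
    · simp [hQ0, Q0, uu_zero]
  have hE : Differentiable ℂ (fun s => exp (Q s)) := hQd.cexp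
  have hds : Differentiable ℂ (dslope (fun s => exp (Q s)) 0) := by
    rw [← differentiableOn_univ, differentiableOn_dslope univ_mem]
    exact hE.differentiableOn
  have hds0 : dslope (fun s => exp (Q s)) 0 0 = -3 * P1 0 := by
    rw [dslope_same, (hQ 0).cexp.deriv, hQ0]
    simp
  have hdsn : ∀ s : ℂ, s ≠ 0 → dslope (fun s => exp (Q s)) 0 s = (exp (Q s) - 1) / s := by
    intro s hs
    rw [dslope_of_ne _ hs, slope_def_field, hQ0, exp_zero, sub_zero]
  obtain ⟨H, hH0, hH, hHc⟩ := prim hds (fun z => by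
    by_cases hz : z = 0
    · subst hz
      have h1 := hP1c 0
      rw [map_zero] at h1
      rw [map_zero, hds0, map_mul, map_neg, map_ofNat, ← h1]
    · rw [hdsn z hz, hdsn _ ((map_ne_zero _).mpr hz), hQc, exp_conj, map_div₀, map_sub, map_one])
  refine ⟨H, fun z => (hH z).differentiableAt, hH0, hHc, ?_, ?_⟩
  · intro s
    rw [(hH s).deriv]
    by_cases hs : s = 0
    · simp [hs]
    · rw [hdsn s hs, mul_div_cancel₀ _ hs, add_sub_cancel]
      exact exp_ne_zero _
  · intro s hs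
    have hR4 : 1 ≤ R ^ 4 := one_le_pow₀ hR
    have key : ‖H s - H0 s‖ ≤ 1296 * R ^ 4 * e1 * ‖s‖ := by
      refine star_lip (D := fun s => H s - H0 s) (fun s hs => (hH s).sub (H0_der hs.1)) ?_ ?_ hs
      · intro s hs
        by_cases h0 : s = 0
        · subst h0
          have h1 := hP1a 0 (by norm_num) (by simpa using sq_nonneg R)
          rw [hds0]
          have e : -3 * P1 0 - (3 * (-1 / rt 0) + 8 * 0 / 3 / (1 + 4 * 0 ^ 2 / 3))
              = -3 * (P1 0 - (exp (log (1 + 0) / 2))⁻¹) := by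
            simp [rt]; ring
          rw [e, norm_mul, norm_neg]
          have h3 : ‖(3 : ℂ)‖ = 3 := by simp
          rw [h3]
          nlinarith
        · have h1 := key_id hs.1
          have e : dslope (fun s => exp (Q s)) 0 s
              - (3 * (-1 / rt s) + 8 * s / 3 / (1 + 4 * s ^ 2 / 3))
              = exp (Q0 s) * (exp (Q s - Q0 s) - 1) / s := by
            rw [hdsn s h0, mul_sub, ← exp_add, add_sub_cancel, mul_one, ← h1]
            field_simp
            ring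
          have hs0 : 0 < ‖s‖ := norm_pos_iff.mpr h0
          have h2 := hQa s hs
          have h3 : 4 * R * e1 * ‖s‖ ≤ 1 := by
            calc 4 * R * e1 * ‖s‖ ≤ 4 * R * e1 * R := by
                  have := hs.2
                  gcongr
              _ = η / (324 * R ^ 3) := by rw [he1]; field_simp; ring
              _ ≤ 1 := by
                  have : 1 ≤ R ^ 3 := one_le_pow₀ hR
                  rw [div_le_one (by positivity)]
                  linarith
          have h4 := norm_exp_sub_one_le (h2.trans h3)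
          rw [e, norm_div, norm_mul, div_le_iff₀ hs0]
          calc ‖exp (Q0 s)‖ * ‖exp (Q s - Q0 s) - 1‖
              ≤ (162 * R ^ 3) * (2 * (4 * R * e1 * ‖s‖)) :=
                mul_le_mul (expQ0_le hR hs) (h4.trans (by linarith)) (norm_nonneg _)
                  (by positivity)
            _ = 1296 * R ^ 4 * e1 * ‖s‖ := by ring
      · simp [hH0, H0, uu_zero]
    calc ‖H s - H0 s‖ ≤ 1296 * R ^ 4 * e1 * ‖s‖ := key
      _ ≤ 1296 * R ^ 4 * e1 * R := by
          have := hs.2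
          gcongr
      _ = η := by rw [he1]; field_simp

end Pool.Agent.Lib.MP_39e9bb_an.LU
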