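import Pool.Agent.Lib.MP_39e9bb_an.Plane

set_option autoImplicit false

namespace Pool.Agent.Lib.MP_39e9bb_an

open Complex Set Filter Topology
open scoped ComplexConjugate Real

/-- For `0 < ε ≤ 1` and `N ≥ 1` there is a normalised entire function whose principal star
in the unit disk lies in the disk of radius `8 / ε ^ 2` and misses the `N` equally spaced
radial slits that start at radius `ε`. -/
theorem exists_fun (ε : ℝ) (hε : 0 < ε) (hε1 : ε ≤ 1) (N : ℕ) (hN : 1 ≤ N) :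
    ∃ f : ℂ → ℂ, Differentiable ℂ f ∧ f 0 = 0 ∧ deriv f 0 = 1 ∧
      ∀ w : ℂ, (∃ γ : ℝ → ℂ, ContinuousOn γ (Set.Icc (0 : ℝ) 1) ∧ γ 0 = 0 ∧
            ∀ t ∈ Set.Icc (0 : ℝ) 1,
              γ t ∈ Metric.ball (0 : ℂ) 1 ∧ f (γ t) = (t : ℂ) * w ∧ deriv f (γ t) ≠ 0) →
        ‖w‖ ≤ 8 / ε ^ 2 ∧ (w ^ N = ((‖w‖ ^ N : ℝ) : ℂ) → ‖w‖ ≤ ε) := by
  set a : ℝ := ε ^ N with ha
  have ha0 : 0 < a := pow_pos hε N
  have ha1 : a ≤ 1 := pow_le_one₀ hε.le hε1
  set R : ℝ := 1 / a with hRdef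
  have hR : 1 ≤ R := by
    rw [hRdef, le_div_iff₀ ha0]
    linarith
  have hac : (a : ℂ) ≠ 0 := ofReal_ne_zero.mpr ha0.ne'
  have hNc : (N : ℂ) ≠ 0 := by exact_mod_cast (by omega : N ≠ 0)
  obtain ⟨H, hH, h0, hc, hc', hap⟩ := exists_H R (1 / (2 * R)) (by positivity)
  let f : ℂ → ℂ := fun z => z * exp (H (z ^ N / a) / N)
  have hfd : ∀ z, HasDerivAt f
      (exp (H (z ^ N / a) / N) * (1 + z ^ N / a * deriv H (z ^ N / a))) z := by
    intro z
    have h1 : HasDerivAt (fun z : ℂ => z ^ N / a) (N * z ^ (N - 1) / a) z :=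
      (hasDerivAt_pow N z).div_const _
    have h2 := (((hH (z ^ N / a)).hasDerivAt.comp z h1).div_const (N : ℂ)).cexp
    have h3 := (hasDerivAt_id z).mul h2
    refine h3.congr_deriv ?_
    obtain ⟨M, rfl⟩ : ∃ M, N = M + 1 := ⟨N - 1, by omega⟩
    simp only [id, Function.comp, Nat.add_sub_cancel]
    field_simp
    ring
  refine ⟨f, fun z => (hfd z).differentiableAt, by simp [f], ?_, ?_⟩
  · rw [(hfd 0).deriv]
    simp [zero_pow (by omega : N ≠ 0), h0]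
  rintro w ⟨γ, hγc, hγ0, hγ⟩
  let σ : ℝ → ℂ := fun t => γ t ^ N / a
  have hσc : ContinuousOn σ (Icc 0 1) := (hγc.pow N).div_const _
  have hσ0 : σ 0 = 0 := by simp [σ, hγ0, zero_pow (by omega : N ≠ 0)]
  have hσR : ∀ t ∈ Icc (0 : ℝ) 1, ‖σ t‖ ≤ R := by
    intro t ht
    have h1 : ‖γ t‖ < 1 := by simpa using (hγ t ht).1
    simp only [σ, norm_div, norm_pow, Complex.norm_real, Real.norm_of_nonneg ha0.le, hRdef]
    gcongr
    exact pow_le_one₀ (norm_nonneg _) h1.le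
  have hl : ∀ t ∈ Icc (0 : ℝ) 1, σ t * exp (H (σ t)) = (t : ℂ) ^ N * (w ^ N / a) := by
    intro t ht
    have h1 := (hγ t ht).2.1
    have h2 : (f (γ t)) ^ N = γ t ^ N * exp (H (σ t)) := by
      simp only [f, σ, mul_pow]
      rw [← Complex.exp_nat_mul]
      congr 2
      field_simp
    rw [h1, mul_pow] at h2
    simp only [σ] at h2 ⊢
    rw [← mul_div_assoc, h2]
    ring
  have hd : ∀ t ∈ Icc (0 : ℝ) 1, 1 + σ t * deriv H (σ t) ≠ 0 := by
    intro t ht h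
    apply (hγ t ht).2.2
    rw [(hfd _).deriv]
    simp only [σ] at h
    rw [h, mul_zero]
  have h1I : (1 : ℝ) ∈ Icc (0 : ℝ) 1 := ⟨zero_le_one, le_rfl⟩
  have hW : ‖w‖ ^ N / a = ‖σ 1‖ * ‖exp (H (σ 1))‖ := by
    have := congrArg norm (hl 1 h1I)
    simp only [norm_mul, ofReal_one, one_pow, one_mul, norm_div, norm_pow, Complex.norm_real,
      Real.norm_of_nonneg ha0.le] at this
    exact this.symm
  have hpos : ∀ W : ℝ, 0 ≤ W → w ^ N / a = W → ∃ x : ℝ, 0 ≤ x ∧ x ≤ 1 / 2 ∧ σ 1 = x := by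
    intro W hW0 hWe
    exact lift_pos hH hR hc hc' hap hσc hσ0 hW0 (N := N) (by
      intro t ht
      rw [hl t ht, hWe]) hd
  have hre : (σ 1).re ≤ 1 / 2 := by
    by_cases hsl : -(w ^ N / a) ∈ slitPlane
    · exact lift_other hH h0 hR hc hap hσc hσ0 hσR hsl hl
    · rw [mem_slitPlane_iff] at hsl
      push Not at hsl
      simp only [neg_re, neg_im, Left.neg_nonpos_iff, neg_eq_zero] at hsl
      obtain ⟨x, -, hx1, hx⟩ := hpos (w ^ N / a).re hsl.1 (by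
        apply Complex.ext
        · simp
        · simp only [ofReal_im]; exact hsl.2)
      rw [hx]
      simpa using hx1
  have hE := exp_H_le hH h0 hR hap hre (hσR 1 h1I)
  constructor
  · have h1 : ‖1 - σ 1‖ ≤ 2 * R := by
      have := norm_sub_le (1 : ℂ) (σ 1)
      have h2 := hσR 1 h1I
      simp only [norm_one] at this
      linarith
    have h2 : ‖w‖ ^ N / a ≤ R * (2 * (2 * R) ^ 2) := by
      rw [hW]
      apply mul_le_mul (hσR 1 h1I) _ (norm_nonneg _) (by linarith)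
      refine hE.trans ?_
      gcongr
    have h3 : ‖w‖ ^ N ≤ 8 * R ^ 2 := by
      rw [div_le_iff₀ ha0] at h2
      have : R * a = 1 := by rw [hRdef]; field_simp
      calc ‖w‖ ^ N ≤ R * (2 * (2 * R) ^ 2) * a := h2
        _ = 8 * R ^ 2 * (R * a) := by ring
        _ = 8 * R ^ 2 := by rw [this, mul_one]
    have h4 : 8 * R ^ 2 ≤ (8 / ε ^ 2) ^ N := by
      have e : R ^ 2 = (1 / ε ^ 2) ^ N := by
        rw [hRdef, ha, div_pow, div_pow, one_pow, one_pow, ← pow_mul, ← pow_mul, mul_comm]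
      rw [e, show (8 : ℝ) / ε ^ 2 = 8 * (1 / ε ^ 2) by ring, mul_pow]
      gcongr
      exact le_self_pow₀ (by norm_num) (by omega)
    exact le_of_pow_le_pow_left₀ (by omega : N ≠ 0) (by positivity) (h3.trans h4)
  · intro hw
    obtain ⟨x, hx0, hx1, hx⟩ := hpos (‖w‖ ^ N / a) (by positivity) (by
      rw [hw]; push_cast; ring)
    have h1 : ‖σ 1‖ ≤ 1 / 2 := by
      rw [hx, Complex.norm_real, Real.norm_of_nonneg hx0]
      exact hx1
    have h2 : ‖1 - σ 1‖ ≤ 1 := by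
      rw [hx, ← ofReal_one, ← ofReal_sub, Complex.norm_real, Real.norm_of_nonneg (by linarith)]
      linarith
    have h3 : ‖exp (H (σ 1))‖ ≤ 2 := by
      refine hE.trans ?_
      have : ‖1 - σ 1‖ ^ 2 ≤ 1 := pow_le_one₀ (norm_nonneg _) h2
      linarith
    have h4 : ‖w‖ ^ N / a ≤ 1 := by
      rw [hW]
      calc ‖σ 1‖ * ‖exp (H (σ 1))‖ ≤ 1 / 2 * 2 :=
            mul_le_mul h1 h3 (norm_nonneg _) (by norm_num)
        _ = 1 := by norm_num
    rw [div_le_one ha0, ha] at h4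
    exact le_of_pow_le_pow_left₀ (by omega : N ≠ 0) hε.le h4

/-- Every point can be rotated by a small angle onto one of `N` equally spaced rays. -/
theorem exists_rot (p : ℂ) (N : ℕ) (hN : 1 ≤ N) :
    ∃ q : ℂ, ‖q‖ = ‖p‖ ∧ q ^ N = ((‖q‖ ^ N : ℝ) : ℂ) ∧ ‖q - p‖ ≤ ‖p‖ * (π / N) := by
  have hNc : (N : ℂ) ≠ 0 := by exact_mod_cast (by omega : N ≠ 0)
  have hN0 : (0 : ℝ) < N := by exact_mod_cast (by omega : 0 < N)
  set θ : ℝ := -(arg (p ^ N)) / N with hθ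
  have hn : ‖p * exp (I * θ)‖ = ‖p‖ := by
    rw [norm_mul, mul_comm I, norm_exp_ofReal_mul_I, mul_one]
  refine ⟨p * exp (I * θ), hn, ?_, ?_⟩
  · rw [hn, mul_pow, ← Complex.exp_nat_mul]
    have h1 := norm_mul_exp_arg_mul_I (p ^ N)
    have h2 : (N : ℂ) * (I * θ) = -(arg (p ^ N) * I) := by
      rw [hθ]
      push_cast
      field_simp
    rw [h2, exp_neg]
    nth_rewrite 1 [← h1]
    rw [norm_pow, mul_assoc, mul_inv_cancel₀ (exp_ne_zero _), mul_one]
  · have : p * exp (I * θ) - p = p * (exp (I * θ) - 1) := by ring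
    rw [this, norm_mul]
    gcongr
    refine Real.norm_exp_I_mul_ofReal_sub_one_le.trans ?_
    rw [hθ, Real.norm_eq_abs, abs_div, abs_neg, abs_of_pos hN0]
    gcongr
    exact abs_arg_le_pi _

/-- For every `B > 0` some normalised entire function has no disk of radius `B` in the
principal star of its restriction to the unit disk. -/
theorem no_disk (B : ℝ) (hB : 0 < B) :
    ∃ f : ℂ → ℂ, Differentiable ℂ f ∧ f 0 = 0 ∧ deriv f 0 = 1 ∧
      ∀ c : ℂ, ¬ (Metric.ball c B ⊆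
          {w : ℂ | ∃ γ : ℝ → ℂ, ContinuousOn γ (Set.Icc (0 : ℝ) 1) ∧ γ 0 = 0 ∧
            ∀ t ∈ Set.Icc (0 : ℝ) 1,
              γ t ∈ Metric.ball (0 : ℂ) 1 ∧ f (γ t) = (t : ℂ) * w ∧ deriv f (γ t) ≠ 0}) := by
  set ε : ℝ := min (B / 4) 1 with hεdef
  have hε : 0 < ε := lt_min (by positivity) one_pos
  have hε1 : ε ≤ 1 := min_le_right _ _
  have hεB : ε ≤ B / 4 := min_le_left _ _
  set M : ℝ := 8 / ε ^ 2 with hM
  have hM0 : 0 < M := by positivity
  obtain ⟨N, hN⟩ := exists_nat_gt (M * π / (B / 2))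
  have hNpos : (0 : ℝ) < N := lt_trans (by positivity) hN
  have hN1 : 1 ≤ N := by exact_mod_cast hNpos
  obtain ⟨f, hf, hf0, hf1, hstar⟩ := exists_fun ε hε hε1 N hN1
  refine ⟨f, hf, hf0, hf1, fun c hc => ?_⟩
  obtain ⟨p, hpc, hp⟩ : ∃ p : ℂ, ‖p - c‖ = B / 2 ∧ B / 2 ≤ ‖p‖ := by
    have hn : ‖((B / 2 : ℝ) : ℂ)‖ = B / 2 := by
      rw [Complex.norm_real, Real.norm_of_nonneg (by positivity)]
    by_cases h : B / 2 ≤ ‖c + ((B / 2 : ℝ) : ℂ)‖
    · exact ⟨_, by rw [add_sub_cancel_left, hn], h⟩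
    · refine ⟨c - ((B / 2 : ℝ) : ℂ), by rw [sub_sub_cancel_left, norm_neg, hn], ?_⟩
      have h1 := norm_sub_le (c + ((B / 2 : ℝ) : ℂ)) (c - ((B / 2 : ℝ) : ℂ))
      have h2 : c + ((B / 2 : ℝ) : ℂ) - (c - ((B / 2 : ℝ) : ℂ)) = (B : ℂ) := by
        push_cast; ring
      rw [h2, Complex.norm_real, Real.norm_of_nonneg hB.le] at h1
      push Not at h
      linarith
  have hpM : ‖p‖ ≤ M := (hstar p (hc (by
    rw [Metric.mem_ball, dist_eq_norm, hpc]; linarith))).1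
  obtain ⟨q, hq1, hq2, hq3⟩ := exists_rot p N hN1
  have hqp : ‖q - p‖ < B / 2 := by
    refine hq3.trans_lt ?_
    rw [div_lt_iff₀ (by positivity)] at hN
    calc ‖p‖ * (π / N) ≤ M * (π / N) := by gcongr
      _ = M * π / N := by ring
      _ < B / 2 := by rw [div_lt_iff₀ hNpos]; linarith
  have hqc : q ∈ Metric.ball c B := by
    rw [Metric.mem_ball, dist_eq_norm]
    have := norm_add_le (q - p) (p - c)
    rw [sub_add_sub_cancel] at this
    linarith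
  have := (hstar q (hc hqc)).2 hq2
  linarith

end Pool.Agent.Lib.MP_39e9bb_an
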