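import Pool.Agent.Lib.MP_39e9bb_an.LU2
import Pool.Agent.Lib.MP_39e9bb_an.Star

set_option autoImplicit false

namespace Pool.Agent.Lib.MP_39e9bb_an.LU

open Complex Set Filter Topology
open scoped ComplexConjugate Real

/-- Near the origin a symmetric normalised map keeps the lower half plane. -/
theorem local_sign {φ : ℂ → ℂ} (hφ : Differentiable ℂ φ) (h1 : deriv φ 0 = 1)
    (hc : ∀ s, φ (conj s) = conj (φ s)) :
    ∃ δ > 0, ∀ s : ℂ, ‖s‖ < δ → s.im < 0 → (φ s).im < 0 := by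
  have hcont : Continuous (deriv φ) := hφ.deriv.continuous
  obtain ⟨δ, hδ, hball⟩ := Metric.continuousAt_iff.mp (hcont.continuousAt (x := 0)) (1 / 2)
    (by norm_num)
  refine ⟨δ, hδ, fun s hs him => ?_⟩
  have hd : ∀ z ∈ Metric.ball (0 : ℂ) δ,
      HasDerivWithinAt (fun z => φ z - z) (deriv φ z - 1) (Metric.ball (0 : ℂ) δ) z :=
    fun z _ => ((hφ z).hasDerivAt.sub (hasDerivAt_id z)).hasDerivWithinAt
  have hb : ∀ z ∈ Metric.ball (0 : ℂ) δ, ‖deriv φ z - 1‖ ≤ 1 / 2 := by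
    intro z hz
    have := hball (Metric.mem_ball.mp hz)
    rw [dist_eq_norm, h1] at this
    exact this.le
  have h := (convex_ball (0 : ℂ) δ).norm_image_sub_le_of_norm_hasDerivWithin_le hd hb
    (x := conj s) (y := s) (by simpa using hs) (by simpa using hs)
  have e1 : ‖s - conj s‖ = -2 * s.im := by
    rw [sub_conj, norm_mul, norm_I, mul_one, Complex.norm_real, Real.norm_eq_abs,
      abs_of_neg (by linarith)]
    ring
  have e2 : (φ s - s - (φ (conj s) - conj s)).im = 2 * (φ s).im - 2 * s.im := by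
    rw [hc]
    simp only [sub_im, conj_im]
    ring
  have h2 := (le_abs_self _).trans ((abs_im_le_norm _).trans h)
  rw [e1, e2] at h2
  linarith

/-- A lift of a ray in the upper half plane never reaches the barrier. -/
theorem lift_up {φ : ℂ → ℂ} {R : ℝ} (hφ : Differentiable ℂ φ) (h1 : deriv φ 0 = 1)
    (hc : ∀ s, φ (conj s) = conj (φ s))
    (hbar : ∀ s : ℂ, ‖s‖ ≤ R → (s ^ 2).re = -1 / 2 → 0 < s.im → (φ s).im < 0)
    {σ : ℝ → ℂ} (hσ : ContinuousOn σ (Icc 0 1)) (h0 : σ 0 = 0)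
    (hR : ∀ t ∈ Icc (0 : ℝ) 1, ‖σ t‖ ≤ R)
    (hpos : ∀ t ∈ Icc (0 : ℝ) 1, 0 < t → 0 < (φ (σ t)).im) :
    -1 / 2 ≤ (σ 1 ^ 2).re := by
  have hne : ∀ t ∈ Icc (0 : ℝ) 1, 0 < t → (σ t).im ≠ 0 := by
    intro t ht htp him
    have h2 := hpos t ht htp
    have h3 : σ t = ((σ t).re : ℂ) := by
      apply Complex.ext <;> simp [him]
    rw [h3, im_eq_zero_of_conj hc] at h2
    exact lt_irrefl _ h2
  obtain ⟨δ, hδ, hloc⟩ := local_sign hφ h1 hc
  have hup : ∀ t ∈ Icc (0 : ℝ) 1, 0 < t → 0 < (σ t).im := by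
    intro t ht htp
    by_contra hn
    have hneg : (σ t).im < 0 := lt_of_le_of_ne (not_lt.mp hn) (hne t ht htp)
    have hc0 : ContinuousWithinAt σ (Icc 0 1) 0 := hσ 0 ⟨le_rfl, zero_le_one⟩
    obtain ⟨ρ, hρ, hρb⟩ := Metric.continuousWithinAt_iff.mp hc0 δ hδ
    set t' : ℝ := min t (ρ / 2) with ht'
    have ht'0 : 0 < t' := lt_min htp (by linarith)
    have ht't : t' ≤ t := min_le_left _ _
    have ht'I : t' ∈ Icc (0 : ℝ) 1 := ⟨ht'0.le, ht't.trans ht.2⟩
    have hsm : ‖σ t'‖ < δ := by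
      have := hρb ht'I (by
        rw [Real.dist_eq, sub_zero, abs_of_pos ht'0]
        have := min_le_right t (ρ / 2)
        linarith)
      rwa [h0, dist_zero_right] at this
    have hge : 0 ≤ (σ t').im := by
      by_contra hlt
      have := hloc _ hsm (not_le.mp hlt)
      have h2 := hpos t' ht'I ht'0
      linarith
    have hsub : Icc t' t ⊆ Icc (0 : ℝ) 1 := Icc_subset_Icc ht'0.le ht.2
    have hci : ContinuousOn (fun x => (σ x).im) (Icc t' t) :=
      continuous_im.comp_continuousOn (hσ.mono hsub)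
    obtain ⟨x, hx, hx0⟩ := intermediate_value_Icc' ht't hci ⟨hneg.le, hge⟩
    exact hne x (hsub hx) (ht'0.trans_le hx.1) hx0
  by_contra hn
  have hlt : (σ 1 ^ 2).re ≤ -1 / 2 := (not_le.mp hn).le
  have hci : ContinuousOn (fun x => (σ x ^ 2).re) (Icc 0 1) :=
    continuous_re.comp_continuousOn (hσ.pow 2)
  have hm : (-1 / 2 : ℝ) ∈ Icc ((fun x => (σ x ^ 2).re) 1) ((fun x => (σ x ^ 2).re) 0) :=
    ⟨hlt, by simp only [h0]; norm_num⟩
  obtain ⟨x, hx, hx0⟩ := intermediate_value_Icc' zero_le_one hci hm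
  have hx0' : (σ x ^ 2).re = -1 / 2 := hx0
  have hxp : 0 < x := by
    rcases hx.1.eq_or_lt with h | h
    · rw [← h, h0] at hx0'
      norm_num at hx0'
    · exact h
  have h2 := hbar _ (hR x hx) hx0' (hup x hx hxp)
  have h3 := hpos x hx hxp
  linarith

/-- The plane model: an entire `H` without critical points of `s * exp (H s)` whose radial lifts
inside the disk of radius `R` end at values of size `O (R ^ 6)`, and at values of size at most
one over the positive axis. -/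
theorem plane {R : ℝ} (hR : 1 ≤ R) :
    ∃ H : ℂ → ℂ, Differentiable ℂ H ∧ H 0 = 0 ∧ (∀ s, 1 + s * deriv H s ≠ 0) ∧
      ∀ (W : ℂ) (N : ℕ) (σ : ℝ → ℂ), ContinuousOn σ (Icc 0 1) → σ 0 = 0 →
        (∀ t ∈ Icc (0 : ℝ) 1, ‖σ t‖ ≤ R) →
        (∀ t ∈ Icc (0 : ℝ) 1, σ t * exp (H (σ t)) = (t : ℂ) ^ N * W) →
        ‖W‖ ≤ 250 * R ^ 6 ∧ (W = (‖W‖ : ℂ) → ‖W‖ ≤ 1) := by
  have hR0 : 0 < R := by linarith
  have hR6 : 1 ≤ R ^ 6 := one_le_pow₀ hR
  set η : ℝ := 1 / (2000000 * R ^ 12) with hηdef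
  have hη : 0 < η := by positivity
  have hη2 : η ≤ 1 / 2 := by
    have : 1 ≤ R ^ 12 := one_le_pow₀ hR
    rw [hηdef]
    apply one_div_le_one_div_of_le <;> linarith
  obtain ⟨H, hH, h0, hc, hnz, hap⟩ := approxH hR hη (by linarith)
  refine ⟨H, hH, h0, hnz, ?_⟩
  let φ : ℂ → ℂ := fun s => s * exp (H s)
  have hφd : ∀ s, HasDerivAt φ (exp (H s) * (1 + s * deriv H s)) s := by
    intro s
    refine ((hasDerivAt_id s).mul (hH s).hasDerivAt.cexp).congr_deriv ?_
    simp only [id]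
    ring
  have hφ : Differentiable ℂ φ := fun s => (hφd s).differentiableAt
  have hφ1 : deriv φ 0 = 1 := by rw [(hφd 0).deriv]; simp [h0]
  have hφc : ∀ s, φ (conj s) = conj (φ s) := by
    intro s
    simp only [φ, hc, exp_conj, map_mul]
  have herr : ∀ s, K R s → ‖φ s - s * exp (H0 s)‖ ≤ ‖s * exp (H0 s)‖ * (2 * η) := by
    intro s hs
    have e : φ s - s * exp (H0 s) = s * exp (H0 s) * (exp (H s - H0 s) - 1) := by
      simp only [φ]
      rw [mul_sub, mul_assoc, ← exp_add, add_sub_cancel, mul_one]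
    rw [e, norm_mul]
    have h1 := hap s hs
    have h2 := norm_exp_sub_one_le (h1.trans (by linarith : η ≤ 1))
    exact mul_le_mul_of_nonneg_left (h2.trans (by linarith)) (norm_nonneg _)
  have hle : ∀ s, K R s → ‖φ s‖ ≤ 2 * ‖s * exp (H0 s)‖ := by
    intro s hs
    have h1 := herr s hs
    have h2 := norm_add_le (φ s - s * exp (H0 s)) (s * exp (H0 s))
    rw [sub_add_cancel] at h2
    nlinarith [norm_nonneg (s * exp (H0 s))]
  have hbar : ∀ s : ℂ, ‖s‖ ≤ R → (s ^ 2).re = -1 / 2 → 0 < s.im → (φ s).im < 0 := by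
    intro s hsR hb him
    have hs : K R s := ⟨hb.ge, hsR⟩
    have h1 := phi0_barrier hR hs hb him
    have h2 := (le_abs_self _).trans ((abs_im_le_norm _).trans (herr s hs))
    have h3 : ‖s * exp (H0 s)‖ * (2 * η) ≤ 125 * R ^ 6 * (2 * η) :=
      mul_le_mul_of_nonneg_right (phi0_le hR hs) (by positivity)
    have h4 : 125 * R ^ 6 * (2 * η) < 1 / (6 * (3 * R) ^ 6) := by
      rw [hηdef, lt_div_iff₀ (by positivity)]
      have : 125 * R ^ 6 * (2 * (1 / (2000000 * R ^ 12))) * (6 * (3 * R) ^ 6)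
          = 1093500 / 2000000 := by
        field_simp
        ring
      rw [this]
      norm_num
    rw [sub_im] at h2
    linarith
  intro W N σ hσ hσ0 hσR hl
  have h1I : (1 : ℝ) ∈ Icc (0 : ℝ) 1 := ⟨zero_le_one, le_rfl⟩
  have hW : φ (σ 1) = W := by simpa using hl 1 h1I
  have him : ∀ t ∈ Icc (0 : ℝ) 1, (φ (σ t)).im = t ^ N * W.im := by
    intro t ht
    have := hl t ht
    simp only [φ]
    rw [this, ← ofReal_pow, im_ofReal_mul]
  have hσ' : ContinuousOn (fun t => conj (σ t)) (Icc 0 1) :=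
    continuous_conj.comp_continuousOn hσ
  have hreal : W.im = 0 → σ 1 = ((σ 1).re : ℂ) := by
    intro hW0
    have := lift_unique hφ hσ hσ' (by simp [hσ0]) (fun t ht => by
      rw [hφc]
      exact (conj_eq_iff_im.mpr (by rw [him t ht, hW0, mul_zero])).symm) (fun t _ => by
      rw [(hφd _).deriv]
      exact mul_ne_zero (exp_ne_zero _) (hnz _)) 1 h1I
    exact (conj_eq_iff_re.mp this.symm).symm
  have hK : K R (σ 1) := by
    refine ⟨?_, hσR 1 h1I⟩
    rcases lt_trichotomy W.im 0 with h | h | h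
    · have := lift_up hφ hφ1 hφc hbar hσ' (by simp [hσ0]) (fun t ht => by
        rw [norm_conj]; exact hσR t ht) (fun t ht htp => by
        rw [hφc, conj_im, him t ht]
        have : 0 < t ^ N := pow_pos htp N
        nlinarith)
      rw [← map_pow, conj_re] at this
      exact this
    · rw [hreal h, ← ofReal_pow, ofReal_re]
      nlinarith [sq_nonneg (σ 1).re]
    · exact lift_up hφ hφ1 hφc hbar hσ hσ0 hσR (fun t ht htp => by
        rw [him t ht]
        exact mul_pos (pow_pos htp N) h)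
  constructor
  · rw [← hW]
    have h1 := hle _ hK
    have h2 := phi0_le hR hK
    linarith
  · intro hWp
    have hW0 : W.im = 0 := by rw [hWp]; simp
    have hx := hreal hW0
    set x : ℝ := (σ 1).re with hxdef
    have hx0 : 0 ≤ x := by
      by_contra hneg
      have h1 : (H x).im = 0 := im_eq_zero_of_conj hc x
      have h2 : (φ x).re = x * Real.exp (H x).re := by
        simp only [φ]
        rw [re_ofReal_mul, exp_re, h1, Real.cos_zero, mul_one]
      have h3 : (φ x).re = ‖W‖ := by rw [← hx, hW, hWp]; simp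
      have h4 := Real.exp_pos (H x).re
      have h5 := norm_nonneg W
      nlinarith [not_le.mp hneg]
    have h1 := hle _ hK
    rw [hW, hx] at h1
    have h2 := phi0_pos hx0
    linarith

/-- A normalised entire function without critical points whose star in the unit disk lies in
the disk of radius `250 / ε ^ 5` and misses `N` radial slits that start at radius `ε`. -/
theorem exists_fun (ε : ℝ) (hε : 0 < ε) (hε1 : ε ≤ 1) (N : ℕ) (hN : 1 ≤ N) :
    ∃ f : ℂ → ℂ, Differentiable ℂ f ∧ f 0 = 0 ∧ deriv f 0 = 1 ∧ (∀ z, deriv f z ≠ 0) ∧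
      ∀ w : ℂ, (∃ γ : ℝ → ℂ, ContinuousOn γ (Set.Icc (0 : ℝ) 1) ∧ γ 0 = 0 ∧
            ∀ t ∈ Set.Icc (0 : ℝ) 1,
              γ t ∈ Metric.ball (0 : ℂ) 1 ∧ f (γ t) = (t : ℂ) * w) →
        ‖w‖ ≤ 250 / ε ^ 5 ∧ (w ^ N = ((‖w‖ ^ N : ℝ) : ℂ) → ‖w‖ ≤ ε) := by
  set a : ℝ := ε ^ N with ha
  have ha0 : 0 < a := pow_pos hε N
  have ha1 : a ≤ 1 := pow_le_one₀ hε.le hε1
  set R : ℝ := 1 / a with hRdef
  have hR : 1 ≤ R := by
    rw [hRdef, le_div_iff₀ ha0]
    linarith
  have hac : (a : ℂ) ≠ 0 := ofReal_ne_zero.mpr ha0.ne'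
  have hNc : (N : ℂ) ≠ 0 := by exact_mod_cast (by omega : N ≠ 0)
  obtain ⟨H, hH, h0, hnz, hmain⟩ := plane hR
  let f : ℂ → ℂ := fun z => z * exp (H (z ^ N / a) / N)
  have hfd : ∀ z, HasDerivAt f
      (exp (H (z ^ N / a) / N) * (1 + z ^ N / a * deriv H (z ^ N / a))) z := by
    intro z
    have h1 : HasDerivAt (fun z : ℂ => z ^ N / a) (N * z ^ (N - 1) / a) z :=
      (hasDerivAt_pow N z).div_const _
    have h2 := (((hH (z ^ N / a)).hasDerivAt.comp z h1).div_const (N : ℂ)).cexp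
    have h3 := (hasDerivAt_id z).mul h2
    refine h3.congr_deriv ?_
    obtain ⟨M, rfl⟩ : ∃ M, N = M + 1 := ⟨N - 1, by omega⟩
    simp only [id, Function.comp, Nat.add_sub_cancel]
    field_simp
    ring
  refine ⟨f, fun z => (hfd z).differentiableAt, by simp [f], ?_, ?_, ?_⟩
  · rw [(hfd 0).deriv]
    simp [zero_pow (by omega : N ≠ 0), h0]
  · intro z
    rw [(hfd z).deriv]
    exact mul_ne_zero (exp_ne_zero _) (hnz _)
  rintro w ⟨γ, hγc, hγ0, hγ⟩
  let σ : ℝ → ℂ := fun t => γ t ^ N / a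
  have hσc : ContinuousOn σ (Icc 0 1) := (hγc.pow N).div_const _
  have hσ0 : σ 0 = 0 := by simp [σ, hγ0, zero_pow (by omega : N ≠ 0)]
  have hσR : ∀ t ∈ Icc (0 : ℝ) 1, ‖σ t‖ ≤ R := by
    intro t ht
    have h1 : ‖γ t‖ < 1 := by simpa using (hγ t ht).1
    simp only [σ, norm_div, norm_pow, Complex.norm_real, Real.norm_of_nonneg ha0.le, hRdef]
    gcongr
    exact pow_le_one₀ (norm_nonneg _) h1.le
  have hl : ∀ t ∈ Icc (0 : ℝ) 1, σ t * exp (H (σ t)) = (t : ℂ) ^ N * (w ^ N / a) := by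
    intro t ht
    have h1 := (hγ t ht).2
    have h2 : (f (γ t)) ^ N = γ t ^ N * exp (H (σ t)) := by
      simp only [f, σ, mul_pow]
      rw [← Complex.exp_nat_mul]
      congr 2
      field_simp
    rw [h1, mul_pow] at h2
    simp only [σ] at h2 ⊢
    rw [← mul_div_assoc, h2]
    ring
  obtain ⟨hA, hB⟩ := hmain (w ^ N / a) N σ hσc hσ0 hσR hl
  have hn : ‖w ^ N / a‖ = ‖w‖ ^ N / a := by
    rw [norm_div, norm_pow, Complex.norm_real, Real.norm_of_nonneg ha0.le]
  rw [hn] at hA hB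
  constructor
  · have h3 : ‖w‖ ^ N ≤ 250 * R ^ 5 := by
      rw [div_le_iff₀ ha0] at hA
      have : R * a = 1 := by rw [hRdef]; field_simp
      calc ‖w‖ ^ N ≤ 250 * R ^ 6 * a := hA
        _ = 250 * R ^ 5 * (R * a) := by ring
        _ = 250 * R ^ 5 := by rw [this, mul_one]
    have h4 : 250 * R ^ 5 ≤ (250 / ε ^ 5) ^ N := by
      have e : R ^ 5 = (1 / ε ^ 5) ^ N := by
        rw [hRdef, ha, div_pow, div_pow, one_pow, one_pow, ← pow_mul, ← pow_mul, mul_comm]
      rw [e, show (250 : ℝ) / ε ^ 5 = 250 * (1 / ε ^ 5) by ring, mul_pow]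
      gcongr
      exact le_self_pow₀ (by norm_num) (by omega)
    exact le_of_pow_le_pow_left₀ (by omega : N ≠ 0) (by positivity) (h3.trans h4)
  · intro hw
    have h4 := hB (by rw [hw]; push_cast; ring)
    rw [div_le_one ha0, ha] at h4
    exact le_of_pow_le_pow_left₀ (by omega : N ≠ 0) hε.le h4

/-- For every `B > 0` some normalised entire function without critical points has no disk of
radius `B` inside the set of points whose radial segment lifts to the unit disk. -/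
theorem no_disk (B : ℝ) (hB : 0 < B) :
    ∃ f : ℂ → ℂ, Differentiable ℂ f ∧ f 0 = 0 ∧ deriv f 0 = 1 ∧ (∀ z, deriv f z ≠ 0) ∧
      ∀ c : ℂ, ¬ (Metric.ball c B ⊆
          {w : ℂ | ∃ γ : ℝ → ℂ, ContinuousOn γ (Set.Icc (0 : ℝ) 1) ∧ γ 0 = 0 ∧
            ∀ t ∈ Set.Icc (0 : ℝ) 1,
              γ t ∈ Metric.ball (0 : ℂ) 1 ∧ f (γ t) = (t : ℂ) * w}) := by
  set ε : ℝ := min (B / 4) 1 with hεdef
  have hε : 0 < ε := lt_min (by positivity) one_pos
  have hε1 : ε ≤ 1 := min_le_right _ _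
  have hεB : ε ≤ B / 4 := min_le_left _ _
  set M : ℝ := 250 / ε ^ 5 with hM
  have hM0 : 0 < M := by positivity
  obtain ⟨N, hN⟩ := exists_nat_gt (M * π / (B / 2))
  have hNpos : (0 : ℝ) < N := lt_trans (by positivity) hN
  have hN1 : 1 ≤ N := by exact_mod_cast hNpos
  obtain ⟨f, hf, hf0, hf1, hfn, hstar⟩ := exists_fun ε hε hε1 N hN1
  refine ⟨f, hf, hf0, hf1, hfn, fun c hc => ?_⟩
  obtain ⟨p, hpc, hp⟩ : ∃ p : ℂ, ‖p - c‖ = B / 2 ∧ B / 2 ≤ ‖p‖ := by
    have hn : ‖((B / 2 : ℝ) : ℂ)‖ = B / 2 := by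
      rw [Complex.norm_real, Real.norm_of_nonneg (by positivity)]
    by_cases h : B / 2 ≤ ‖c + ((B / 2 : ℝ) : ℂ)‖
    · exact ⟨_, by rw [add_sub_cancel_left, hn], h⟩
    · refine ⟨c - ((B / 2 : ℝ) : ℂ), by rw [sub_sub_cancel_left, norm_neg, hn], ?_⟩
      have h1 := norm_sub_le (c + ((B / 2 : ℝ) : ℂ)) (c - ((B / 2 : ℝ) : ℂ))
      have h2 : c + ((B / 2 : ℝ) : ℂ) - (c - ((B / 2 : ℝ) : ℂ)) = (B : ℂ) := by
        push_cast; ring
      rw [h2, Complex.norm_real, Real.norm_of_nonneg hB.le] at h1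
      push Not at h
      linarith
  have hpM : ‖p‖ ≤ M := (hstar p (hc (by
    rw [Metric.mem_ball, dist_eq_norm, hpc]; linarith))).1
  obtain ⟨q, hq1, hq2, hq3⟩ := exists_rot p N hN1
  have hqp : ‖q - p‖ < B / 2 := by
    refine hq3.trans_lt ?_
    rw [div_lt_iff₀ (by positivity)] at hN
    calc ‖p‖ * (π / N) ≤ M * (π / N) := by gcongr
      _ = M * π / N := by ring
      _ < B / 2 := by rw [div_lt_iff₀ hNpos]; linarith
  have hqc : q ∈ Metric.ball c B := by
    rw [Metric.mem_ball, dist_eq_norm]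
    have := norm_add_le (q - p) (p - c)
    rw [sub_add_sub_cancel] at this
    linarith
  have := (hstar q (hc hqc)).2 hq2
  linarith

end Pool.Agent.Lib.MP_39e9bb_an.LU
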