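import Pool.Agent.Lib.MP_39e9bb_an.Approx

set_option autoImplicit false

namespace Pool.Agent.Lib.MP_39e9bb_an

open Complex Set Filter Topology
open scoped ComplexConjugate Real

section

variable {H : ℂ → ℂ} {R : ℝ}

/-- The error term `H s - 2 log (1 - s)` is Lipschitz with a small constant on the
controlled region. -/
theorem err_lip (hH : Differentiable ℂ H)
    (hap : ∀ s : ℂ, s.re ≤ 1 / 2 → ‖s‖ ≤ R → ‖deriv H s + 2 / (1 - s)‖ ≤ 1 / (2 * R))
    {s s' : ℂ} (hs : s.re ≤ 1 / 2) (hsR : ‖s‖ ≤ R) (hs' : s'.re ≤ 1 / 2) (hsR' : ‖s'‖ ≤ R) :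
    ‖(H s - 2 * log (1 - s)) - (H s' - 2 * log (1 - s'))‖ ≤ 1 / (2 * R) * ‖s - s'‖ := by
  let K : Set ℂ := {z : ℂ | z.re ≤ 1 / 2} ∩ Metric.closedBall 0 R
  have hK : Convex ℝ K := (convex_halfSpace_re_le _).inter (convex_closedBall _ _)
  have hd : ∀ z ∈ K, HasDerivWithinAt (fun z => H z - 2 * log (1 - z))
      (deriv H z + 2 / (1 - z)) K z := by
    intro z hz
    have hz1 : z.re ≤ 1 / 2 := hz.1
    have hsl : 1 - z ∈ slitPlane := by
      left
      simp
      linarith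
    have h1 : HasDerivAt (fun z : ℂ => 1 - z) (-1) z := (hasDerivAt_id z).const_sub 1
    have h2 := (hH z).hasDerivAt.sub ((h1.clog hsl).const_mul 2)
    refine (h2.congr_deriv ?_).hasDerivWithinAt
    ring
  exact hK.norm_image_sub_le_of_norm_hasDerivWithin_le hd
    (fun z hz => hap z hz.1 (by simpa using hz.2)) ⟨hs', by simpa using hsR'⟩
    ⟨hs, by simpa using hsR⟩

theorem exp_H_le (hH : Differentiable ℂ H) (h0 : H 0 = 0) (hR : 1 ≤ R)
    (hap : ∀ s : ℂ, s.re ≤ 1 / 2 → ‖s‖ ≤ R → ‖deriv H s + 2 / (1 - s)‖ ≤ 1 / (2 * R))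
    {s : ℂ} (hs : s.re ≤ 1 / 2) (hsR : ‖s‖ ≤ R) :
    ‖exp (H s)‖ ≤ 2 * ‖1 - s‖ ^ 2 := by
  have h := err_lip hH hap hs hsR (s' := 0) (by simp) (by simp; linarith)
  simp only [h0, sub_zero, log_one, mul_zero] at h
  have hne : (1 - s) ≠ 0 := by
    intro h
    have := congrArg re h
    simp at this
    linarith
  have e : exp (H s) = (1 - s) ^ 2 * exp (H s - 2 * log (1 - s)) := by
    have : (1 - s) ^ 2 = exp (2 * log (1 - s)) := by
      rw [show (2 : ℂ) * log (1 - s) = log (1 - s) + log (1 - s) by ring, exp_add, exp_log hne]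
      ring
    rw [this, ← exp_add]
    congr 1
    ring
  have hb : ‖H s - 2 * log (1 - s)‖ ≤ 1 / 2 := by
    refine h.trans ?_
    have hR0 : 0 < R := by linarith
    calc 1 / (2 * R) * ‖s‖ ≤ 1 / (2 * R) * R := by gcongr
      _ = 1 / 2 := by field_simp
  have hexp : ‖exp (H s - 2 * log (1 - s))‖ ≤ 2 := by
    rw [norm_exp]
    have h1 : (H s - 2 * log (1 - s)).re ≤ 1 / 2 := (re_le_norm _).trans hb
    have h2 : Real.exp (1 / 2) ≤ 2 := by
      have h3 : Real.exp (1 / 2) ^ 2 = Real.exp 1 := by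
        rw [← Real.exp_nat_mul]; norm_num
      have h4 := Real.exp_one_lt_d9
      have h5 := Real.exp_pos (1 / 2)
      nlinarith
    exact (Real.exp_le_exp.mpr h1).trans h2
  rw [e, norm_mul, norm_pow]
  have := sq_nonneg ‖1 - s‖
  nlinarith

theorem im_eq_zero_of_conj {g : ℂ → ℂ} (hc : ∀ s, g (conj s) = conj (g s)) (x : ℝ) :
    (g x).im = 0 := by
  have := hc x
  rw [conj_ofReal] at this
  exact conj_eq_iff_im.mp this.symm

/-- There is a critical point of `s * exp (H s)` on the segment from `0` to `1/2`. -/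
theorem exists_crit (hH : Differentiable ℂ H) (hR : 1 ≤ R)
    (hc' : ∀ s, deriv H (conj s) = conj (deriv H s))
    (hap : ∀ s : ℂ, s.re ≤ 1 / 2 → ‖s‖ ≤ R → ‖deriv H s + 2 / (1 - s)‖ ≤ 1 / (2 * R)) :
    ∃ x : ℝ, 0 ≤ x ∧ x ≤ 1 / 2 ∧ 1 + (x : ℂ) * deriv H x = 0 := by
  have hcont : Continuous (fun x : ℝ => (1 + (x : ℂ) * deriv H x).re) := by
    have : Continuous (deriv H) := hH.deriv.continuous
    fun_prop
  have hle : (1 + (((1 / 2 : ℝ) : ℝ) : ℂ) * deriv H ((1 / 2 : ℝ) : ℝ)).re ≤ 0 := by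
    have h := hap ((1 / 2 : ℝ) : ℝ) (by simp) (by simp; linarith)
    have h2 : 1 / (2 * R) ≤ 1 / 2 := by
      apply one_div_le_one_div_of_le <;> linarith
    have h3 := (re_le_norm _).trans (h.trans h2)
    have h4 : (2 / (1 - (((1 / 2 : ℝ) : ℝ) : ℂ))) = 4 := by
      push_cast; norm_num
    rw [h4] at h3
    simp at h3 ⊢
    linarith
  have hmem : (0 : ℝ) ∈ Icc ((fun x : ℝ => (1 + (x : ℂ) * deriv H x).re) (1 / 2))
      ((fun x : ℝ => (1 + (x : ℂ) * deriv H x).re) 0) := ⟨hle, by simp⟩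
  obtain ⟨x, hx, hx0⟩ := intermediate_value_Icc' (by norm_num : (0 : ℝ) ≤ 1 / 2)
    hcont.continuousOn hmem
  refine ⟨x, hx.1, hx.2, ?_⟩
  apply Complex.ext
  · simpa using hx0
  · simp [im_eq_zero_of_conj hc' x]

/-- On the barrier `Re s = 1/2` the argument of `s * exp (H s)` has left the allowed range. -/
theorem barrier (hH : Differentiable ℂ H) (hR : 1 ≤ R)
    (hc : ∀ s, H (conj s) = conj (H s))
    (hap : ∀ s : ℂ, s.re ≤ 1 / 2 → ‖s‖ ≤ R → ‖deriv H s + 2 / (1 - s)‖ ≤ 1 / (2 * R))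
    {s : ℂ} (hs : s.re = 1 / 2) (hsR : ‖s‖ ≤ R) (him : s.im ≠ 0) :
    π < |arg (-s) + (H s).im| := by
  have hR0 : 0 < R := by linarith
  have h := err_lip hH hap hs.le hsR (s' := ((1 / 2 : ℝ) : ℝ)) (by simp) (by simp; linarith)
  have hn : ‖s - ((1 / 2 : ℝ) : ℝ)‖ = |s.im| := by
    have : s - ((1 / 2 : ℝ) : ℝ) = (s.im : ℂ) * I := by
      apply Complex.ext <;> simp [hs]
    rw [this]
    simp
  rw [hn] at h
  have h2 := (abs_im_le_norm _).trans h
  have hconj : 1 - s = conj s := by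
    apply Complex.ext
    · simp [hs]; norm_num
    · simp
  have harg : arg s ≠ π := by
    intro h
    have := (arg_eq_pi_iff.mp h).2
    exact him this
  have e1 : (log (1 - s)).im = -arg s := by
    rw [log_im, hconj, arg_conj, if_neg harg]
  have e2 : (log (1 - (((1 / 2 : ℝ) : ℝ) : ℂ))).im = 0 := by
    rw [log_im, show (1 - (((1 / 2 : ℝ) : ℝ) : ℂ)) = (((1 / 2 : ℝ) : ℝ) : ℂ) by push_cast; ring]
    exact arg_ofReal_of_nonneg (by norm_num)
  have e3 : (H ((1 / 2 : ℝ) : ℝ)).im = 0 := im_eq_zero_of_conj hc _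
  have e4 : ((H s - 2 * log (1 - s)) - (H ((1 / 2 : ℝ) : ℝ)
      - 2 * log (1 - (((1 / 2 : ℝ) : ℝ) : ℂ)))).im = (H s).im + 2 * arg s := by
    simp only [sub_im, mul_im, re_ofNat, im_ofNat, e1, e2, e3]
    ring
  rw [e4] at h2
  have hs0 : 0 < ‖s‖ := by
    apply norm_pos_iff.mpr
    intro h
    rw [h] at him
    simp at him
  have hsin : |s.im| / R ≤ |arg s| := by
    calc |s.im| / R ≤ |s.im| / ‖s‖ := by gcongr
      _ = |Real.sin (arg s)| := by rw [sin_arg, abs_div, abs_norm]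
      _ ≤ |arg s| := Real.abs_sin_le_abs
  have hpos : 0 < |s.im| / R := div_pos (abs_pos.mpr him) hR0
  have h3 : |(H s).im + 2 * arg s| < |arg s| := by
    have : 1 / (2 * R) * |s.im| = |s.im| / R / 2 := by field_simp
    linarith
  rcases lt_or_gt_of_ne him with hi | hi
  · have ha : arg s < 0 := arg_neg_iff.mpr hi
    rw [arg_neg_eq_arg_add_pi_of_im_neg hi]
    rw [abs_of_neg ha, abs_lt] at h3
    rw [lt_abs]
    left
    linarith [h3.1]
  · have ha : 0 ≤ arg s := arg_nonneg_iff.mpr hi.le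
    rw [arg_neg_eq_arg_sub_pi_of_im_pos hi]
    rw [abs_of_nonneg ha, abs_lt] at h3
    rw [lt_abs]
    right
    linarith [h3.2]

/-- Lifts of rays in the direction of the positive axis stop before the critical point. -/
theorem lift_pos (hH : Differentiable ℂ H) (hR : 1 ≤ R)
    (hc : ∀ s, H (conj s) = conj (H s)) (hc' : ∀ s, deriv H (conj s) = conj (deriv H s))
    (hap : ∀ s : ℂ, s.re ≤ 1 / 2 → ‖s‖ ≤ R → ‖deriv H s + 2 / (1 - s)‖ ≤ 1 / (2 * R))
    {σ : ℝ → ℂ} (hσ : ContinuousOn σ (Icc 0 1)) (hσ0 : σ 0 = 0) {N : ℕ} {W : ℝ} (hW : 0 ≤ W)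
    (hl : ∀ t ∈ Icc (0 : ℝ) 1, σ t * exp (H (σ t)) = (t : ℂ) ^ N * W)
    (hd : ∀ t ∈ Icc (0 : ℝ) 1, 1 + σ t * deriv H (σ t) ≠ 0) :
    ∃ x : ℝ, 0 ≤ x ∧ x ≤ 1 / 2 ∧ σ 1 = x := by
  let P : ℂ → ℂ := fun s => s * exp (H s)
  have hPd : ∀ s, HasDerivAt P (exp (H s) * (1 + s * deriv H s)) s := by
    intro s
    have := (hasDerivAt_id s).mul (hH s).hasDerivAt.cexp
    refine this.congr_deriv ?_
    simp only [id]
    ring
  have hreal : ∀ t ∈ Icc (0 : ℝ) 1, σ t = conj (σ t) := by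
    apply lift_unique (P := P) (fun s => (hPd s).differentiableAt) hσ
      (continuous_conj.comp_continuousOn hσ) (by simp [hσ0])
    · intro t ht
      have h1 := hl t ht
      have h2 : P (conj (σ t)) = conj (P (σ t)) := by
        simp only [P, hc, exp_conj, map_mul]
      have h3 : P (σ t) = (t : ℂ) ^ N * W := h1
      show P (σ t) = P (conj (σ t))
      rw [h2, h3]
      simp
    · intro t ht
      rw [(hPd _).deriv]
      exact mul_ne_zero (exp_ne_zero _) (hd t ht)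
  have hre : ∀ t ∈ Icc (0 : ℝ) 1, σ t = ((σ t).re : ℂ) := by
    intro t ht
    exact (conj_eq_iff_re.mp (hreal t ht).symm).symm
  obtain ⟨x, hx0, hx1, hx⟩ := exists_crit hH hR hc' hap
  have h1I : (1 : ℝ) ∈ Icc (0 : ℝ) 1 := ⟨zero_le_one, le_rfl⟩
  refine ⟨(σ 1).re, ?_, ?_, hre 1 h1I⟩
  · have h1 := hl 1 h1I
    rw [hre 1 h1I] at h1
    have h2 : H ((σ 1).re : ℂ) = ((H ((σ 1).re : ℂ)).re : ℂ) := by
      apply Complex.ext
      · simp
      · simp [im_eq_zero_of_conj hc]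
    rw [h2, ← ofReal_exp] at h1
    have h3 : (σ 1).re * Real.exp (H ((σ 1).re : ℂ)).re = W := by
      have : (((σ 1).re * Real.exp (H ((σ 1).re : ℂ)).re : ℝ) : ℂ) = W := by
        push_cast at h1 ⊢
        simpa using h1
      exact_mod_cast this
    have h4 := Real.exp_pos (H ((σ 1).re : ℂ)).re
    by_contra hneg
    push Not at hneg
    nlinarith
  · by_contra hgt
    push Not at hgt
    have hcont : ContinuousOn (fun t => (σ t).re) (Icc (0 : ℝ) 1) :=
      continuous_re.comp_continuousOn hσ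
    have hmem : x ∈ Icc ((fun t => (σ t).re) 0) ((fun t => (σ t).re) 1) :=
      ⟨by simpa [hσ0] using hx0, by linarith⟩
    obtain ⟨t, ht, htx⟩ := intermediate_value_Icc zero_le_one hcont hmem
    apply hd t ht
    rw [hre t ht]
    simp only at htx
    rw [htx]
    exact hx

/-- Lifts of the other rays never cross the barrier. -/
theorem lift_other (hH : Differentiable ℂ H) (h0 : H 0 = 0) (hR : 1 ≤ R)
    (hc : ∀ s, H (conj s) = conj (H s))
    (hap : ∀ s : ℂ, s.re ≤ 1 / 2 → ‖s‖ ≤ R → ‖deriv H s + 2 / (1 - s)‖ ≤ 1 / (2 * R))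
    {σ : ℝ → ℂ} (hσ : ContinuousOn σ (Icc 0 1)) (hσ0 : σ 0 = 0)
    (hσR : ∀ t ∈ Icc (0 : ℝ) 1, ‖σ t‖ ≤ R) {N : ℕ} {W : ℂ} (hW : -W ∈ slitPlane)
    (hl : ∀ t ∈ Icc (0 : ℝ) 1, σ t * exp (H (σ t)) = (t : ℂ) ^ N * W) :
    (σ 1).re ≤ 1 / 2 := by
  by_contra hgt
  push Not at hgt
  have hcont : ContinuousOn (fun t => (σ t).re) (Icc (0 : ℝ) 1) :=
    continuous_re.comp_continuousOn hσ
  have hmem : (1 / 2 : ℝ) ∈ Icc ((fun t => (σ t).re) 0) ((fun t => (σ t).re) 1) :=
    ⟨by simp [hσ0], hgt.le⟩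
  obtain ⟨t₀, ht₀, ht₀x⟩ := intermediate_value_Icc zero_le_one hcont hmem
  simp only at ht₀x
  have hW0 : W ≠ 0 := by
    intro h
    rw [h] at hW
    simp at hW
  -- the continuous argument
  let φ : ℝ → ℝ := fun t => arg (-W) - (H (σ t)).im
  have hφc : ContinuousOn φ (Icc (0 : ℝ) 1) :=
    continuousOn_const.sub
      (continuous_im.comp_continuousOn (hH.continuous.comp_continuousOn hσ))
  have hpolar : ∀ t ∈ Icc (0 : ℝ) 1, -σ t =
      ((t ^ N * ‖W‖ * Real.exp (-(H (σ t)).re) : ℝ) : ℂ) * exp (φ t * I) := by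
    intro t ht
    have h1 := hl t ht
    have h2 : -W = ‖W‖ * exp (arg (-W) * I) := by
      have := norm_mul_exp_arg_mul_I (-W)
      rw [norm_neg] at this
      exact this.symm
    have h3 : -σ t = (t : ℂ) ^ N * (-W) * exp (-H (σ t)) := by
      rw [exp_neg, mul_neg, ← h1]
      field_simp
    rw [h3]
    nth_rewrite 1 [h2]
    have h4 : exp (-H (σ t)) = exp (-((H (σ t)).re : ℂ)) * exp (-((H (σ t)).im * I)) := by
      rw [← exp_add, ← neg_add, re_add_im]
    rw [h4]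
    simp only [φ]
    push_cast
    rw [sub_mul, sub_eq_add_neg, exp_add]
    ring
  -- for positive times the lift is off the nonnegative axis
  have hoff : ∀ t ∈ Icc (0 : ℝ) 1, 0 < t → -σ t ∈ slitPlane := by
    intro t ht htp
    by_contra hn
    rw [mem_slitPlane_iff] at hn
    push Not at hn
    simp only [neg_re, neg_im, Left.neg_nonpos_iff, neg_eq_zero] at hn
    have hre : σ t = ((σ t).re : ℂ) := by
      apply Complex.ext
      · simp
      · simp [hn.2]
    have h1 := hl t ht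
    rw [hre] at h1
    have h2 : H ((σ t).re : ℂ) = ((H ((σ t).re : ℂ)).re : ℂ) := by
      apply Complex.ext
      · simp
      · simp [im_eq_zero_of_conj hc]
    rw [h2, ← ofReal_exp] at h1
    have htN : (0 : ℝ) < t ^ N := pow_pos htp N
    have h3 : W = (((σ t).re * Real.exp (H ((σ t).re : ℂ)).re / t ^ N : ℝ) : ℂ) := by
      have : ((t : ℂ)) ^ N ≠ 0 := pow_ne_zero _ (ofReal_ne_zero.mpr htp.ne')
      push_cast at h1 ⊢
      rw [h1]
      field_simp
    rw [h3, ← ofReal_neg, ofReal_mem_slitPlane] at hW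
    have h4 : 0 ≤ (σ t).re * Real.exp (H ((σ t).re : ℂ)).re / t ^ N := by
      have := hn.1
      positivity
    linarith
  have hne : ∀ t ∈ Icc (0 : ℝ) 1, |φ t| ≠ π := by
    intro t ht hπ
    rcases ht.1.eq_or_lt with h | h
    · subst h
      simp only [φ, hσ0, h0, zero_im, sub_zero] at hπ
      have h1 := slitPlane_arg_ne_pi hW
      have h2 := neg_pi_lt_arg (-W)
      rcases abs_eq Real.pi_pos.le |>.mp hπ with h | h
      · exact h1 h
      · linarith
    · have h1 := hoff t ht h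
      rw [hpolar t ht] at h1
      have h2 : exp (φ t * I) = -1 := by
        rcases abs_eq Real.pi_pos.le |>.mp hπ with h | h
        · rw [h, exp_pi_mul_I]
        · rw [h]
          push_cast
          rw [neg_mul, exp_neg, exp_pi_mul_I]
          norm_num
      rw [h2, mul_neg_one, ← ofReal_neg, ofReal_mem_slitPlane] at h1
      have h4 : 0 ≤ t ^ N * ‖W‖ * Real.exp (-(H (σ t)).re) := by positivity
      linarith
  have hlt : |φ t₀| < π := by
    by_contra hge
    push Not at hge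
    have hc2 : ContinuousOn (fun t => |φ t|) (Icc (0 : ℝ) t₀) :=
      (hφc.mono (Icc_subset_Icc_right ht₀.2)).abs
    have hm : π ∈ Icc ((fun t => |φ t|) 0) ((fun t => |φ t|) t₀) := by
      refine ⟨?_, hge⟩
      simp only [φ, hσ0, h0, zero_im, sub_zero]
      exact abs_arg_le_pi _
    obtain ⟨t, ht, htπ⟩ := intermediate_value_Icc ht₀.1 hc2 hm
    exact hne t ⟨ht.1, ht.2.trans ht₀.2⟩ htπ
  have ht₀p : 0 < t₀ := by
    rcases ht₀.1.eq_or_lt with h | h
    · rw [← h, hσ0] at ht₀x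
      norm_num at ht₀x
    · exact h
  have harg : arg (-σ t₀) = φ t₀ := by
    rw [hpolar t₀ ht₀, arg_real_mul _ (by
      have : 0 < ‖W‖ := norm_pos_iff.mpr hW0
      positivity), exp_mul_I]
    have := arg_cos_add_sin_mul_I (θ := φ t₀) ⟨(abs_lt.mp hlt).1, (abs_lt.mp hlt).2.le⟩
    exact this
  have him : (σ t₀).im ≠ 0 := by
    have h1 := hoff t₀ ht₀ ht₀p
    rw [mem_slitPlane_iff] at h1
    rcases h1 with h1 | h1
    · simp only [neg_re] at h1
      linarith
    · simpa using h1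
  have hb := barrier hH hR hc hap ht₀x (hσR t₀ ht₀) him
  rw [harg] at hb
  simp only [φ, sub_add_cancel] at hb
  exact absurd (abs_arg_le_pi (-W)) (not_le.mpr hb)

end

end Pool.Agent.Lib.MP_39e9bb_an
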